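import Pool.Agent.Helper38.EX.FDr

/-!
# The classes `BR r a` and their closure properties

`BR r a A`: `A` is the set of the sizes of the models of a first-order property of quantifier rank at most `r` in a
finite vocabulary of relation symbols of arity at most `a` (any number of symbols).
-/

set_option autoImplicit false

namespace Pool.Agent.Helper38.EX

open FirstOrder FirstOrder.Language Pool.Agent.Helper20.Spectra

variable {S K : Type} {ar : S → ℕ} {ark : K → ℕ}

/-! ## Change of the vocabulary -/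

private lemma inl_aux38 {α : Type} : ∀ {m : ℕ} (φ : (RelLang S ar).BoundedFormula α m),
    ∃ ψ : (RelLang (S ⊕ K) (Sum.elim ar ark)).BoundedFormula α m, qd ψ ≤ qd φ ∧
      ∀ (M : Type) (R : Interp (S ⊕ K) (Sum.elim ar ark) M) (v : α → M) (xs : Fin m → M),
        @BoundedFormula.Realize _ M (mkS R) _ _ ψ v xs ↔
          @BoundedFormula.Realize _ M (mkS (ar := ar) (fun s => R (Sum.inl s))) _ _ φ v xs := by
  intro m φ
  induction φ with
  | falsum => exact ⟨.falsum, le_rfl, fun M R v xs => Iff.rfl⟩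
  | @equal m t₁ t₂ =>
    rcases t₁ with x | ⟨f, _⟩
    · rcases t₂ with y | ⟨f, _⟩
      · exact ⟨.equal (Term.var x) (Term.var y), le_rfl, fun M R v xs => Iff.rfl⟩
      · exact Empty.elim f
    · exact Empty.elim f
  | @rel m l r ts =>
    obtain ⟨s, rfl⟩ := r
    have hts : ∀ i, ∃ x, ts i = Term.var x := by
      intro i
      rcases h : ts i with x | ⟨f, _⟩
      · exact ⟨x, rfl⟩
      · exact Empty.elim f
    choose x hx using hts
    refine ⟨.rel (L := RelLang (S ⊕ K) (Sum.elim ar ark)) (⟨Sum.inl s, rfl⟩ :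
      {t : S ⊕ K // Sum.elim ar ark t = ar s}) (fun i => Term.var (x i)), le_rfl,
      fun M R v xs => ?_⟩
    obtain rfl : ts = fun i => Term.var (x i) := funext hx
    exact Iff.rfl
  | imp f g ihf ihg =>
    obtain ⟨f', hf, hf'⟩ := ihf
    obtain ⟨g', hg, hg'⟩ := ihg
    refine ⟨f'.imp g', ?_, fun M R v xs => ?_⟩
    · show max (qd f') (qd g') ≤ max (qd f) (qd g)
      omega
    · exact imp_congr (hf' M R v xs) (hg' M R v xs)
  | all f ihf =>
    obtain ⟨f', hf, hf'⟩ := ihf
    refine ⟨f'.all, ?_, fun M R v xs => ?_⟩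
    · show qd f' + 1 ≤ qd f + 1
      omega
    · exact forall_congr' (fun x => hf' M R v _)

private lemma inr_aux38 {α : Type} : ∀ {m : ℕ} (φ : (RelLang K ark).BoundedFormula α m),
    ∃ ψ : (RelLang (S ⊕ K) (Sum.elim ar ark)).BoundedFormula α m, qd ψ ≤ qd φ ∧
      ∀ (M : Type) (R : Interp (S ⊕ K) (Sum.elim ar ark) M) (v : α → M) (xs : Fin m → M),
        @BoundedFormula.Realize _ M (mkS R) _ _ ψ v xs ↔
          @BoundedFormula.Realize _ M (mkS (ar := ark) (fun s => R (Sum.inr s))) _ _ φ v xs := by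
  intro m φ
  induction φ with
  | falsum => exact ⟨.falsum, le_rfl, fun M R v xs => Iff.rfl⟩
  | @equal m t₁ t₂ =>
    rcases t₁ with x | ⟨f, _⟩
    · rcases t₂ with y | ⟨f, _⟩
      · exact ⟨.equal (Term.var x) (Term.var y), le_rfl, fun M R v xs => Iff.rfl⟩
      · exact Empty.elim f
    · exact Empty.elim f
  | @rel m l r ts =>
    obtain ⟨s, rfl⟩ := r
    have hts : ∀ i, ∃ x, ts i = Term.var x := by
      intro i
      rcases h : ts i with x | ⟨f, _⟩
      · exact ⟨x, rfl⟩
      · exact Empty.elim f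
    choose x hx using hts
    refine ⟨.rel (L := RelLang (S ⊕ K) (Sum.elim ar ark)) (⟨Sum.inr s, rfl⟩ :
      {t : S ⊕ K // Sum.elim ar ark t = ark s}) (fun i => Term.var (x i)), le_rfl,
      fun M R v xs => ?_⟩
    obtain rfl : ts = fun i => Term.var (x i) := funext hx
    exact Iff.rfl
  | imp f g ihf ihg =>
    obtain ⟨f', hf, hf'⟩ := ihf
    obtain ⟨g', hg, hg'⟩ := ihg
    refine ⟨f'.imp g', ?_, fun M R v xs => ?_⟩
    · show max (qd f') (qd g') ≤ max (qd f) (qd g)
      omega
    · exact imp_congr (hf' M R v xs) (hg' M R v xs)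
  | all f ihf =>
    obtain ⟨f', hf, hf'⟩ := ihf
    refine ⟨f'.all, ?_, fun M R v xs => ?_⟩
    · show qd f' + 1 ≤ qd f + 1
      omega
    · exact forall_congr' (fun x => hf' M R v _)

/-- relativisation to the unary symbol `u` -/
private lemma relat_aux38 {α : Type} (u : K) : ∀ {m : ℕ} (φ : (RelLang S ar).BoundedFormula α m),
    ∃ ψ : (RelLang (S ⊕ K) (Sum.elim ar ark)).BoundedFormula α m, qd ψ ≤ qd φ ∧
      ∀ (M : Type) (R : Interp (S ⊕ K) (Sum.elim ar ark) M) (v : α → M) (xs : Fin m → M)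
        (hv : ∀ a, R (Sum.inr u) (fun _ => v a)) (hx : ∀ i, R (Sum.inr u) (fun _ => xs i)),
        @BoundedFormula.Realize _ M (mkS R) _ _ ψ v xs ↔
          @BoundedFormula.Realize _ {x : M // R (Sum.inr u) (fun _ => x)}
            (mkS (ar := ar) (fun s w => R (Sum.inl s) (fun i => (w i).1))) _ _ φ
            (fun a => ⟨v a, hv a⟩) (fun i => ⟨xs i, hx i⟩) := by
  intro m φ
  induction φ with
  | falsum => exact ⟨.falsum, le_rfl, fun M R v xs _ _ => Iff.rfl⟩
  | @equal m t₁ t₂ =>
    rcases t₁ with x | ⟨f, _⟩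
    · rcases t₂ with y | ⟨f, _⟩
      · refine ⟨.equal (Term.var x) (Term.var y), le_rfl, fun M R v xs hv hx => ?_⟩
        show Sum.elim v xs x = Sum.elim v xs y ↔
          Sum.elim (fun a => (⟨v a, hv a⟩ : {x : M // R (Sum.inr u) (fun _ => x)}))
            (fun i => ⟨xs i, hx i⟩) x = Sum.elim (fun a => ⟨v a, hv a⟩) (fun i => ⟨xs i, hx i⟩) y
        rcases x with x | x <;> rcases y with y | y <;> simp
      · exact Empty.elim f
    · exact Empty.elim f
  | @rel m l r ts =>
    obtain ⟨s, rfl⟩ := r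
    have hts : ∀ i, ∃ x, ts i = Term.var x := by
      intro i
      rcases h : ts i with x | ⟨f, _⟩
      · exact ⟨x, rfl⟩
      · exact Empty.elim f
    choose x hx using hts
    refine ⟨.rel (L := RelLang (S ⊕ K) (Sum.elim ar ark)) (⟨Sum.inl s, rfl⟩ :
      {t : S ⊕ K // Sum.elim ar ark t = ar s}) (fun i => Term.var (x i)), le_rfl,
      fun M R v xs hv hx' => ?_⟩
    obtain rfl : ts = fun i => Term.var (x i) := funext hx
    show R (Sum.inl s) (fun i => Sum.elim v xs (x i)) ↔
      R (Sum.inl s) (fun i => (Sum.elim (fun a => (⟨v a, hv a⟩ :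
        {x : M // R (Sum.inr u) (fun _ => x)})) (fun i => ⟨xs i, hx' i⟩) (x i)).1)
    refine Iff.of_eq (congrArg _ ?_)
    funext i
    rcases x i with y | y <;> rfl
  | imp f g ihf ihg =>
    obtain ⟨f', hf, hf'⟩ := ihf
    obtain ⟨g', hg, hg'⟩ := ihg
    refine ⟨f'.imp g', ?_, fun M R v xs hv hx => ?_⟩
    · show max (qd f') (qd g') ≤ max (qd f) (qd g)
      omega
    · exact imp_congr (hf' M R v xs hv hx) (hg' M R v xs hv hx)
  | @all m f ihf =>
    obtain ⟨f', hf, hf'⟩ := ihf
    refine ⟨((BoundedFormula.rel (L := RelLang (S ⊕ K) (Sum.elim ar ark)) (⟨Sum.inr u, rfl⟩ :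
      {t : S ⊕ K // Sum.elim ar ark t = ark u}) (fun _ => Term.var (Sum.inr (Fin.last m)))).imp
        f').all, ?_, fun M R v xs hv hx => ?_⟩
    · show max 0 (qd f') + 1 ≤ qd f + 1
      omega
    · let _ := mkS R
      have key : ∀ (x : M) (hxx : R (Sum.inr u) (fun _ => x)),
          (f'.Realize v (Fin.snoc xs x) ↔
          @BoundedFormula.Realize _ {x : M // R (Sum.inr u) (fun _ => x)}
            (mkS (ar := ar) (fun s w => R (Sum.inl s) (fun i => (w i).1))) _ _ f
            (fun a => ⟨v a, hv a⟩) (Fin.snoc (fun i => ⟨xs i, hx i⟩) ⟨x, hxx⟩)) := by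
        intro x hxx
        have h1 : ∀ i, R (Sum.inr u) (fun _ => (Fin.snoc xs x : Fin (m + 1) → M) i) := by
          intro i
          refine Fin.lastCases ?_ (fun i => ?_) i
          · simpa using hxx
          · simpa using hx i
        have h2 := hf' M R v (Fin.snoc xs x) hv h1
        have h3 : (fun i => (⟨(Fin.snoc xs x : Fin (m + 1) → M) i, h1 i⟩ :
            {x : M // R (Sum.inr u) (fun _ => x)})) =
            Fin.snoc (fun i => ⟨xs i, hx i⟩) ⟨x, hxx⟩ := by
          funext i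
          refine Fin.lastCases ?_ (fun i => ?_) i
          · simp
          · simp
        rw [h3] at h2
        exact h2
      have hlast : ∀ x : M, Sum.elim v (Fin.snoc xs x : Fin (m + 1) → M) (Sum.inr (Fin.last m)) = x := by
        intro x
        simp
      show (∀ x : M, R (Sum.inr u) (fun _ => Sum.elim v (Fin.snoc xs x : Fin (m + 1) → M)
          (Sum.inr (Fin.last m))) → f'.Realize v (Fin.snoc xs x)) ↔
        ∀ y : {x : M // R (Sum.inr u) (fun _ => x)},
          @BoundedFormula.Realize _ {x : M // R (Sum.inr u) (fun _ => x)}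
            (mkS (ar := ar) (fun s w => R (Sum.inl s) (fun i => (w i).1))) _ _ f
            (fun a => ⟨v a, hv a⟩) (Fin.snoc (fun i => ⟨xs i, hx i⟩) y)
      simp only [hlast]
      constructor
      · rintro h ⟨y, hy⟩
        exact (key y hy).1 (h y hy)
      · intro h x hxx
        exact (key x hxx).2 (h ⟨x, hxx⟩)

namespace FDr

variable {r : ℕ} {α : Type}

lemma inl {P : ∀ (M : Type), Interp S ar M → (α → M) → Prop} (h : FDr S ar r α P) :
    FDr (S ⊕ K) (Sum.elim ar ark) r α (fun M R v => P M (fun s => R (Sum.inl s)) v) := by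
  obtain ⟨φ, hq, hφ⟩ := h
  obtain ⟨ψ, hψ, hψ'⟩ := inl_aux38 (K := K) (ark := ark) φ
  exact ⟨ψ, hψ.trans hq, fun M R v => (hψ' M R v default).trans (hφ M _ v)⟩

lemma inr {P : ∀ (M : Type), Interp K ark M → (α → M) → Prop} (h : FDr K ark r α P) :
    FDr (S ⊕ K) (Sum.elim ar ark) r α (fun M R v => P M (fun s => R (Sum.inr s)) v) := by
  obtain ⟨φ, hq, hφ⟩ := h
  obtain ⟨ψ, hψ, hψ'⟩ := inr_aux38 (S := S) (ar := ar) φ
  exact ⟨ψ, hψ.trans hq, fun M R v => (hψ' M R v default).trans (hφ M _ v)⟩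

/-- **Relativisation.** The property relativised to the set defined by the symbol `u` has the same rank. -/
lemma relat {P : ∀ (M : Type), Interp S ar M → (Empty → M) → Prop} (h : FDr S ar r Empty P) (u : K) :
    FDr (S ⊕ K) (Sum.elim ar ark) r Empty (fun M R _ =>
      P {x : M // R (Sum.inr u) (fun _ => x)} (fun s w => R (Sum.inl s) (fun i => (w i).1))
        Empty.elim) := by
  obtain ⟨φ, hq, hφ⟩ := h
  obtain ⟨ψ, hψ, hψ'⟩ := relat_aux38 (ark := ark) u φ
  refine ⟨ψ, hψ.trans hq, fun M R v => ?_⟩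
  have h1 := hψ' M R v default (fun a => a.elim) (fun i => i.elim0)
  have h2 := hφ {x : M // R (Sum.inr u) (fun _ => x)}
    (fun s w => R (Sum.inl s) (fun i => (w i).1)) Empty.elim
  refine Iff.trans h1 (Iff.trans ?_ h2)
  unfold Formula.Realize
  have e1 : (fun a : Empty => (⟨v a, a.elim⟩ : {x : M // R (Sum.inr u) (fun _ => x)})) =
      Empty.elim := funext (fun a => a.elim)
  have e2 : (fun i : Fin 0 => (⟨(default : Fin 0 → M) i, i.elim0⟩ :
      {x : M // R (Sum.inr u) (fun _ => x)})) = default := funext (fun i => i.elim0)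
  rw [e1, e2]

end FDr

/-! ## The classes -/

/-- the positive numbers `n` such that some structure with `n` elements satisfies `P` -/
def sizesR (P : ∀ (M : Type), Interp S ar M → (Empty → M) → Prop) : Set ℕ :=
  {n : ℕ | 1 ≤ n ∧ ∃ (M : Type) (_ : Fintype M) (R : Interp S ar M),
      Fintype.card M = n ∧ P M R Empty.elim}

/-- `A` is the set of sizes of the models of a property of rank at most `r` in a finite relational vocabulary of
arities at most `a` -/
def BR (r a : ℕ) (A : Set ℕ) : Prop :=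
  ∃ (S : Type) (_ : Finite S) (ar : S → ℕ) (P : ∀ (M : Type), Interp S ar M → (Empty → M) → Prop),
    (∀ s, ar s ≤ a) ∧ FDr S ar r Empty P ∧ A = sizesR P

namespace BR

variable {r a : ℕ} {A B : Set ℕ}

lemma mono {r' a' : ℕ} (h : BR r a A) (hr : r ≤ r') (ha : a ≤ a') : BR r' a' A := by
  obtain ⟨S, hS, ar, P, h1, h2, h3⟩ := h
  exact ⟨S, hS, ar, P, fun s => (h1 s).trans ha, h2.mono hr, h3⟩

lemma ts (h : BR r a A) : TS (r + a) A := by
  obtain ⟨S, hS, ar, P, h1, h2, rfl⟩ := h
  exact h2.ts (by omega) (fun s => by have := h1 s; omega)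

lemma powSq (h : BR r a A) : PowSq (r + a + 1) A := h.ts.powSq

lemma isSpectrum (h : BR r a A) : IsSpectrum A := by
  obtain ⟨S, hS, ar, P, h1, h2, rfl⟩ := h
  exact h2.toFD.isSpectrum

lemma pos (h : BR r a A) {n : ℕ} (hn : n ∈ A) : 1 ≤ n := by
  obtain ⟨S, hS, ar, P, h1, h2, rfl⟩ := h
  exact hn.1

lemma empty : BR r a ∅ := by
  refine ⟨Empty, inferInstance, fun e => e.elim, fun _ _ _ => False, fun e => e.elim, FDr.const _, ?_⟩
  ext n
  constructor
  · intro h; exact h.elim
  · rintro ⟨_, M, _, R, _, h⟩; exact h.elim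

lemma union (hA : BR r a A) (hB : BR r a B) : BR r a (A ∪ B) := by
  obtain ⟨S, hS, ar, P, h1, h2, rfl⟩ := hA
  obtain ⟨K, hK, ark, Q, h3, h4, rfl⟩ := hB
  refine ⟨S ⊕ K, inferInstance, Sum.elim ar ark,
    fun M R v => P M (fun s => R (Sum.inl s)) v ∨ Q M (fun s => R (Sum.inr s)) v, ?_,
    (h2.inl).or (h4.inr), ?_⟩
  · rintro (s | s)
    · exact h1 s
    · exact h3 s
  · ext n
    constructor
    · rintro (⟨hn, M, hM, R, hc, hP⟩ | ⟨hn, M, hM, R, hc, hP⟩)
      · exact ⟨hn, M, hM, fun s => match s with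
          | Sum.inl s => R s
          | Sum.inr _ => fun _ => False, hc, Or.inl hP⟩
      · exact ⟨hn, M, hM, fun s => match s with
          | Sum.inl _ => fun _ => False
          | Sum.inr s => R s, hc, Or.inr hP⟩
    · rintro ⟨hn, M, hM, R, hc, hP | hP⟩
      · exact Or.inl ⟨hn, M, hM, _, hc, hP⟩
      · exact Or.inr ⟨hn, M, hM, _, hc, hP⟩

lemma biUnion {ι : Type} (s : Finset ι) {A : ι → Set ℕ} (h : ∀ i ∈ s, BR r a (A i)) :
    BR r a (⋃ i ∈ s, A i) := by
  classical
  induction s using Finset.induction_on with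
  | empty => simpa using (BR.empty (r := r) (a := a))
  | insert i s hi ih =>
    rw [Finset.set_biUnion_insert]
    exact (h i (Finset.mem_insert_self i s)).union
      (ih (fun j hj => h j (Finset.mem_insert_of_mem hj)))

lemma iUnion {ι : Type} [Finite ι] {A : ι → Set ℕ} (h : ∀ i, BR r a (A i)) :
    BR r a (⋃ i, A i) := by
  have := Fintype.ofFinite ι
  have h1 := biUnion (r := r) (a := a) Finset.univ (fun i _ => h i)
  simpa using h1

end BR

end Pool.Agent.Helper38.EX
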