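import Pool.Agent.Helper20.Spectra.FD
import Pool.Agent.Helper20.Spectra.Universal

/-!
# Spectra of sentences with bounded resources

`PowSq c` is the class of the sets `A` with `n ∈ A ↔ n ^ c ∈ squareSizes Θ` for some finite set `Θ` of blocks.
All spectra of sentences with a bounded number of variables in scope and symbols of bounded arity (any number of
symbols) belong to one class `PowSq c`. If the spectra are exactly the rudimentary sets, no class `PowSq c`
contains all spectra.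
-/

set_option autoImplicit false

namespace Pool.Agent.Helper38.EX

open FirstOrder FirstOrder.Language Pool.Agent.Helper20.Spectra

/-- `A` is the set of all `n` such that `n ^ c` is a square size of some finite set of blocks -/
def PowSq (c : ℕ) (A : Set ℕ) : Prop :=
  ∃ Θ : Finset (ℕ × ℕ × ℕ × ℕ), ∀ n, 1 ≤ n → (n ∈ A ↔ n ^ c ∈ squareSizes Θ)

/-- the positive elements of `A` are the solvable sizes of a finite system of constraints for labels of the
`(k + 1)`-tuples -/
def TS (k : ℕ) (A : Set ℕ) : Prop :=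
  ∃ (Λ : Type) (_ : Finite Λ) (T : TupSys k Λ), ∀ n, 1 ≤ n → (n ∈ A ↔ T.Sat n)

lemma TS.powSq {k : ℕ} {A : Set ℕ} (h : TS k A) : PowSq (k + 1) A := by
  obtain ⟨Λ, hΛ, T, hT⟩ := h
  obtain ⟨Θ, hΘ⟩ := T.exists_blocks
  exact ⟨Θ, fun n hn => (hT n hn).trans (hΘ n hn).symm⟩

/-- spectra of sentences with at most `V` variables in scope are sizes of a tuple system -/
theorem ts_of_ctx {L : FirstOrder.Language.{0, 0}} [Finite (Σ l, L.Functions l)]
    [Finite (Σ l, L.Relations l)] (φ : L.Sentence) {V k : ℕ} (hV : V ≤ k)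
    (hφ : ctx (L := L) (m := 0) φ ≤ V) (hA' : ∀ f : Σ l, L.Functions l, V + f.1 ≤ k)
    (hB' : ∀ r : Σ l, L.Relations l, V + r.1 ≤ k) : TS k (spec φ) := by
  have hA : ∀ f : Σ l, L.Functions l, V + 1 + f.1 ≤ k + 1 := by
    intro f; have := hA' f; omega
  have hB : ∀ f : Σ l, L.Relations l, V + 1 + f.1 ≤ k + 1 := by
    intro f; have := hB' f; omega
  obtain ⟨Φ, hΦ, hΦ'⟩ := form_def hV hA hB (m := 0) φ hφ
  have h1 : Loc k Empty (fun n R => ∃ Q : Sym L ⊕ Unit → Rel k n,
      (∃ S : L.Structure (Fin (n + 1)), Codes V k n (fun s => Q (Sum.inl s)) S) ∧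
      Φ n Q ∧ ∀ x, Q (Sum.inr ()) x) := by
    refine ((((codes_loc hV hA hB).comap (ι' := Empty ⊕ (Sym L ⊕ Unit))
      (fun s => Sum.inr (Sum.inl s))).and ((hΦ.comap (ι' := Empty ⊕ (Sym L ⊕ Unit))
      Sum.inr).and (Loc.univ (ι := Empty ⊕ (Sym L ⊕ Unit))
        (fun l p => l (Sum.inr (Sum.inr ()), id))))).ex).congr (fun n R => ?_)
    rfl
  obtain ⟨κ, hκ, T, hT⟩ := h1
  refine ⟨(Empty ⊕ κ → Prop), inferInstance, T, fun n hn => ?_⟩
  obtain ⟨n, rfl⟩ : ∃ n', n = n' + 1 := ⟨n - 1, by omega⟩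
  have hSat : T.Sat (n + 1) ↔ ∃ Q : κ → Rel k n, T.Ok (n + 1) (fun x =>
      Sum.elim (fun i : Empty => (i.elim : Prop)) (fun q => Q q x)) := by
    constructor
    · rintro ⟨l, hl⟩
      refine ⟨fun q x => l x (Sum.inr q), ?_⟩
      have : l = (fun x => Sum.elim (fun i : Empty => (i.elim : Prop))
          (fun q => l x (Sum.inr q))) := by
        funext x i
        rcases i with i | i
        · exact i.elim
        · rfl
      rw [← this]; exact hl
    · rintro ⟨Q, hQ⟩; exact ⟨_, hQ⟩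
  rw [hSat]
  have h2 := hT n (fun i => i.elim)
  have h4 : (∃ Q : κ → Rel k n, T.Ok (n + 1) (fun x =>
      Sum.elim (fun i : Empty => (i.elim : Rel k n) x) (fun q => Q q x))) ↔
      ∃ Q : κ → Rel k n, T.Ok (n + 1) (fun x =>
      Sum.elim (fun i : Empty => (i.elim : Prop)) (fun q => Q q x)) := by
    apply exists_congr
    intro Q
    have : (fun x : Fin (k + 1) → Fin (n + 1) => (Sum.elim (fun i : Empty => (i.elim : Rel k n) x)
        (fun q => Q q x) : Empty ⊕ κ → Prop)) = (fun x =>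
      Sum.elim (fun i : Empty => (i.elim : Prop)) (fun q => Q q x)) := by
      funext x i
      rcases i with i | i
      · exact i.elim
      · rfl
    rw [this]
  rw [← h4, ← h2]
  have hcore : ∀ S : L.Structure (Fin (n + 1)), (∃ Q : Sym L ⊕ Unit → Rel k n,
      Codes V k n (fun s => Q (Sum.inl s)) S ∧ Φ n Q ∧ ∀ x, Q (Sum.inr ()) x) ↔
      @Sentence.Realize L (Fin (n + 1)) S φ := by
    intro S
    constructor
    · rintro ⟨Q, hQ, hΦQ, hx⟩
      have e : Q = Sum.elim (fun s => Q (Sum.inl s)) (fun _ => Q (Sum.inr ())) := by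
        funext s; rcases s with s | s <;> rfl
      rw [e] at hΦQ
      have h5 := (hΦ' n _ S _ hQ).1 hΦQ (fun _ => 0)
      exact (real_iff S φ _ _).1 (h5.1 (hx _))
    · intro h
      let I : Sym L → Rel k n := Sum.elim
        (fun f x => x (dg k V) = S.funMap f.2 (fun i => x (dg k (V + 1 + i))))
        (fun r x => S.RelMap r.2 (fun i => x (dg k (V + 1 + i))))
      have hI : Codes V k n I S := ⟨fun f x => Iff.rfl, fun r x => Iff.rfl⟩
      refine ⟨Sum.elim I (fun _ _ => True), hI, ?_, fun _ => trivial⟩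
      refine (hΦ' n I S _ hI).2 (fun x => ?_)
      simp only [true_iff]
      exact (real_iff S φ _ _).2 h
  constructor
  · rintro ⟨-, M, hM, hfin, hcard, hreal⟩
    let e : M ≃ Fin (n + 1) := Fintype.equivFinOfCardEq hcard
    let S : L.Structure (Fin (n + 1)) := e.inducedStructure
    have h5 : @Sentence.Realize L (Fin (n + 1)) S φ :=
      (StrongHomClass.realize_sentence (e.inducedStructureEquiv (L := L)) φ).1 hreal
    obtain ⟨Q, hQ, hQ'⟩ := (hcore S).2 h5
    exact ⟨Q, ⟨S, hQ⟩, hQ'⟩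
  · rintro ⟨Q, ⟨S, hQ⟩, hQ'⟩
    refine ⟨by omega, Fin (n + 1), S, inferInstance, by simp, ?_⟩
    exact (hcore S).1 ⟨Q, hQ, hQ'⟩

/-- **Bounded resources.** The spectrum of a sentence with at most `V` variables in scope and symbols of arity
at most `k - V` belongs to `PowSq (k + 1)`. -/
theorem powSq_of_ctx {L : FirstOrder.Language.{0, 0}} [Finite (Σ l, L.Functions l)]
    [Finite (Σ l, L.Relations l)] (φ : L.Sentence) {V k : ℕ} (hV : V ≤ k)
    (hφ : ctx (L := L) (m := 0) φ ≤ V) (hA : ∀ f : Σ l, L.Functions l, V + f.1 ≤ k)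
    (hB : ∀ r : Σ l, L.Relations l, V + r.1 ≤ k) : PowSq (k + 1) (spec φ) :=
  (ts_of_ctx φ hV hφ hA hB).powSq

/-! ## The diagonal argument -/

/-- If the spectra are exactly the rudimentary sets of positive integers, then no class `PowSq c` contains all
spectra. -/
theorem exists_not_powSq (h : ∀ A : Set ℕ, IsSpectrum A ↔ (IsRudimentary A ∧ 0 ∉ A)) (c : ℕ) :
    ∃ A : Set ℕ, IsSpectrum A ∧ ¬ PowSq c A := by
  have hU : IsRudimentary univSizes := ((h _).1 univSizes_spectrum).1
  let D : Set ℕ := {n | 1 ≤ n ∧ ∃ s, s ≤ n ∧ ∃ t, t ≤ n ∧ (n = s ^ 2 + t ∧ t ≤ 2 * s ∧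
    (n ^ c + 2 + t) ^ 2 + t ∉ univSizes)}
  have hD : IsRudimentary D := by
    apply isRudimentary_of
    have x0 : Helper20.Spectra.IsPoly 1 (fun v => v 0) := Helper20.Spectra.IsPoly.var 0
    have n2 : Helper20.Spectra.IsPoly 3 (fun w => Fin.tail (Fin.tail w) 0) := Helper20.Spectra.IsPoly.var 2
    have s1 : Helper20.Spectra.IsPoly 3 (fun w => Fin.tail w 0) := Helper20.Spectra.IsPoly.var 1
    have t0 : Helper20.Spectra.IsPoly 3 (fun w => w 0) := Helper20.Spectra.IsPoly.var 0
    refine RudX.and' (RudX.le (Helper20.Spectra.IsPoly.const 1) x0) (RudX.ex x0 (RudX.ex x0.tail ?_))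
    refine RudX.and' (RudX.eq n2 ((s1.pow 2).add t0)) (RudX.and'
      (RudX.le t0 ((Helper20.Spectra.IsPoly.const 2).mul s1)) (RudX.not' (RudX.mem hU ?_)))
    exact ((((n2.pow c).add (Helper20.Spectra.IsPoly.const 2)).add t0).pow 2).add t0
  have hD0 : 0 ∉ D := fun h0 => absurd h0.1 (by omega)
  refine ⟨D, (h D).2 ⟨hD, hD0⟩, ?_⟩
  rintro ⟨Θ, hΘ⟩
  obtain ⟨t, rfl⟩ := exists_blk Θ
  have hn : 1 ≤ (t + 1) ^ 2 + t := by nlinarith
  have h1 := hΘ ((t + 1) ^ 2 + t) hn
  have h2 : (t + 1) ^ 2 + t ∈ D ↔ ((((t + 1) ^ 2 + t) ^ c + 2 + t) ^ 2 + t) ∉ univSizes := by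
    constructor
    · rintro ⟨_, s, _, u, _, h3, h4, h5⟩
      have hs : s = t + 1 := by
        rcases Nat.lt_trichotomy s (t + 1) with hlt | heq | hgt
        · exfalso
          have h6 : s + 1 ≤ t + 1 := hlt
          have h7 := Nat.pow_le_pow_left h6 2
          nlinarith
        · exact heq
        · exfalso
          have h6 : t + 1 + 1 ≤ s := hgt
          have h7 := Nat.pow_le_pow_left h6 2
          nlinarith
      subst hs
      have hu : u = t := by omega
      subst hu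
      exact h5
    · intro h5
      refine ⟨hn, t + 1, ?_, t, ?_, rfl, ?_, h5⟩
      · nlinarith
      · nlinarith
      · omega
  rw [h2, mem_univSizes] at h1
  tauto

/-- A class of spectra with bounded resources and with a universal element is not the class of the rudimentary
sets of positive integers. -/
theorem ne_rud_of_universal {C : Set ℕ → Prop} {c : ℕ} (hC : ∀ A, C A → PowSq c A)
    (hU : ∃ U, C U ∧ ∀ A : Set ℕ, IsSpectrum A ↔
      ∃ h : Polynomial ℕ, A = {n : ℕ | 1 ≤ n ∧ h.eval n ∈ U}) :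
    ¬ ∀ A : Set ℕ, C A ↔ (IsRudimentary A ∧ 0 ∉ A) := by
  intro h
  obtain ⟨U, hCU, hU⟩ := hU
  have hUr : IsRudimentary U := ((h U).1 hCU).1
  have h1 : ∀ A : Set ℕ, IsSpectrum A ↔ (IsRudimentary A ∧ 0 ∉ A) := by
    intro A
    constructor
    · intro hA
      refine ⟨?_, hA.zero_notMem⟩
      obtain ⟨q, rfl⟩ := (hU A).1 hA
      exact hUr.preimage q
    · rintro ⟨h2, h3⟩
      exact h2.isSpectrum h3
  obtain ⟨A, hA, hA'⟩ := exists_not_powSq h1 c
  exact hA' (hC A ((h A).2 ((h1 A).1 hA)))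

end Pool.Agent.Helper38.EX
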