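import Pool.Agent.Helper38.EX.BRc

/-!
# `BR r a` is closed under adding a finitely generated monoid
-/

set_option autoImplicit false

namespace Pool.Agent.Helper38.EX

open FirstOrder FirstOrder.Language Pool.Agent.Helper20.Spectra

/-- the positions in the blocks: the sizes of the blocks are in `T` -/
abbrev Pos38 (T : Finset ℕ) : Type := Σ s : {s // s ∈ T}, Fin s.1

/-- the symbols: the class of a position (`none`: the old part), and the bijections -/
abbrev Sy38 (T : Finset ℕ) : Type := Option (Pos38 T) ⊕ Pos38 T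

/-- their arities -/
abbrev ar38 (T : Finset ℕ) : Sy38 T → ℕ := Sum.elim (fun _ => 1) (fun _ => 2)

section

variable {T : Finset ℕ} (hT : ∀ s ∈ T, 0 < s)

/-- the first position of a block -/
def fst38 (s : {s // s ∈ T}) : Pos38 T := ⟨s, ⟨0, hT s.1 s.2⟩⟩

/-- the structure of the blocks -/
def Blocks38 {S : Type} {ar : S → ℕ} (M : Type) (R : Interp (S ⊕ Sy38 T) (Sum.elim ar (ar38 T)) M) :
    Prop :=
  (∀ x : M, ∃ i : Option (Pos38 T), R (Sum.inr (Sum.inl i)) (fun _ => x) ∧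
    ∀ j : Option (Pos38 T), R (Sum.inr (Sum.inl j)) (fun _ => x) → j = i) ∧
  ∀ p : Pos38 T,
    (∀ x : M, R (Sum.inr (Sum.inl (some (fst38 hT p.1)))) (fun _ => x) →
      ∃ y : M, R (Sum.inr (Sum.inl (some p))) (fun _ => y) ∧ R (Sum.inr (Sum.inr p)) ![x, y]) ∧
    (∀ y : M, R (Sum.inr (Sum.inl (some p))) (fun _ => y) →
      ∃ x : M, R (Sum.inr (Sum.inl (some (fst38 hT p.1)))) (fun _ => x) ∧
        R (Sum.inr (Sum.inr p)) ![x, y]) ∧
    (∀ x y y' : M, R (Sum.inr (Sum.inr p)) ![x, y] → R (Sum.inr (Sum.inr p)) ![x, y'] → y = y') ∧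
    (∀ x x' y : M, R (Sum.inr (Sum.inr p)) ![x, y] → R (Sum.inr (Sum.inr p)) ![x', y] → x = x')

private lemma pj1_38 {α : Type} (a : α) : Pj α (Fin 1) (fun _ v => fun _ => v a) :=
  ⟨fun _ => a, fun _ _ => rfl⟩

private lemma pj2_38 {α : Type} (a b : α) : Pj α (Fin 2) (fun _ v => ![v a, v b]) :=
  ⟨![a, b], fun M v => by funext i; fin_cases i <;> rfl⟩

lemma Blocks38_FDr {S : Type} {ar : S → ℕ} :
    FDr (S ⊕ Sy38 T) (Sum.elim ar (ar38 T)) 3 Empty (fun M R _ => Blocks38 hT M R) := by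
  have hU : ∀ {α : Type} {r : ℕ} (i : Option (Pos38 T)) (a : α),
      FDr (S ⊕ Sy38 T) (Sum.elim ar (ar38 T)) r α
        (fun M R v => R (Sum.inr (Sum.inl i)) (fun _ => v a)) := by
    intro α r i a
    exact FDr.rel (S := S ⊕ Sy38 T) (ar := Sum.elim ar (ar38 T)) (Sum.inr (Sum.inl i)) (pj1_38 a)
  have hF : ∀ {α : Type} {r : ℕ} (p : Pos38 T) (a b : α),
      FDr (S ⊕ Sy38 T) (Sum.elim ar (ar38 T)) r α
        (fun M R v => R (Sum.inr (Sum.inr p)) ![v a, v b]) := by
    intro α r p a b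
    exact FDr.rel (S := S ⊕ Sy38 T) (ar := Sum.elim ar (ar38 T)) (Sum.inr (Sum.inr p)) (pj2_38 a b)
  unfold Blocks38
  refine FDr.and ?_ (FDr.all_fin (fun p => FDr.and ?_ (FDr.and ?_ (FDr.and ?_ ?_))))
  · refine (FDr.all1 (r := 0) ?_).mono (by omega)
    exact FDr.ex_fin (fun i => (hU i (Sum.inr ())).and
      (FDr.all_fin (fun j => (hU j (Sum.inr ())).imp (FDr.const _))))
  · refine (FDr.all1 (r := 1) (FDr.imp (hU _ (Sum.inr ())) (FDr.ex1 (r := 0) ?_))).mono (by omega)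
    exact (hU _ (Sum.inr ())).and (hF p (Sum.inl (Sum.inr ())) (Sum.inr ()))
  · refine (FDr.all1 (r := 1) (FDr.imp (hU _ (Sum.inr ())) (FDr.ex1 (r := 0) ?_))).mono (by omega)
    exact (hU _ (Sum.inr ())).and (hF p (Sum.inr ()) (Sum.inl (Sum.inr ())))
  · refine FDr.all1 (r := 2) (FDr.all1 (r := 1) (FDr.all1 (r := 0) ?_))
    refine (hF p (Sum.inl (Sum.inl (Sum.inr ()))) (Sum.inl (Sum.inr ()))).imp
      ((hF p (Sum.inl (Sum.inl (Sum.inr ()))) (Sum.inr ())).imp ?_)
    exact FDr.eq (El.var (Sum.inl (Sum.inr ()))) (El.var (Sum.inr ()))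
  · refine FDr.all1 (r := 2) (FDr.all1 (r := 1) (FDr.all1 (r := 0) ?_))
    refine (hF p (Sum.inl (Sum.inl (Sum.inr ()))) (Sum.inr ())).imp
      ((hF p (Sum.inl (Sum.inr ())) (Sum.inr ())).imp ?_)
    exact FDr.eq (El.var (Sum.inl (Sum.inl (Sum.inr ())))) (El.var (Sum.inl (Sum.inr ())))

private lemma card_blocks38 {S : Type} {ar : S → ℕ} {M : Type} [Fintype M]
    (R : Interp (S ⊕ Sy38 T) (Sum.elim ar (ar38 T)) M) (h : Blocks38 hT M R) :
    ∃ c : ℕ → ℕ, Fintype.card M =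
      Nat.card {x : M // R (Sum.inr (Sum.inl none)) (fun _ => x)} + ∑ s ∈ T, c s * s := by
  classical
  obtain ⟨h1, h2⟩ := h
  choose idx hidx hidx' using h1
  have hcl : ∀ (i : Option (Pos38 T)) (x : M), R (Sum.inr (Sum.inl i)) (fun _ => x) ↔ idx x = i := by
    intro i x
    constructor
    · intro h; exact (hidx' x i h).symm
    · rintro rfl; exact hidx x
  let d : Option (Pos38 T) → ℕ := fun i => (Finset.univ.filter (fun x : M => idx x = i)).card
  have hd : ∀ p : Pos38 T, d (some p) = d (some (fst38 hT p.1)) := by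
    intro p
    obtain ⟨k1, k2, k3, k4⟩ := h2 p
    symm
    choose g hg hg' using k1
    apply Finset.card_bij (fun x hx => g x ((hcl _ x).2 (Finset.mem_filter.1 hx).2))
    · intro x hx
      rw [Finset.mem_filter]
      exact ⟨Finset.mem_univ _, (hcl _ _).1 (hg x _)⟩
    · intro x hx y hy hxy
      have e1 := hg' x ((hcl _ x).2 (Finset.mem_filter.1 hx).2)
      have e2 := hg' y ((hcl _ y).2 (Finset.mem_filter.1 hy).2)
      rw [← hxy] at e2
      exact k4 _ _ _ e1 e2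
    · intro y hy
      obtain ⟨x, hx, hxy⟩ := k2 y ((hcl _ y).2 (Finset.mem_filter.1 hy).2)
      have hx' : idx x = some (fst38 hT p.1) := (hcl _ x).1 hx
      refine ⟨x, Finset.mem_filter.2 ⟨Finset.mem_univ _, hx'⟩, ?_⟩
      exact k3 _ _ _ (hg' x hx) hxy
  have hcard : Fintype.card M = ∑ i : Option (Pos38 T), d i := by
    rw [← Finset.card_univ]
    exact Finset.card_eq_sum_card_fiberwise (fun x _ => Finset.mem_coe.2 (Finset.mem_univ _))
  have hnone : d none = Nat.card {x : M // R (Sum.inr (Sum.inl none)) (fun _ => x)} := by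
    rw [Nat.card_eq_fintype_card, Fintype.card_subtype]
    show (Finset.univ.filter (fun x : M => idx x = none)).card = _
    congr 1
    ext x
    simp only [Finset.mem_filter, Finset.mem_univ, true_and]
    exact (hcl none x).symm
  refine ⟨fun s => if hs : s ∈ T then d (some (fst38 hT ⟨s, hs⟩)) else 0, ?_⟩
  rw [hcard, Fintype.sum_option, hnone, Fintype.sum_sigma]
  congr 1
  have h3 : ∀ s : {s // s ∈ T}, ∑ j : Fin s.1, d (some ⟨s, j⟩) = d (some (fst38 hT s)) * s.1 := by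
    intro s
    rw [Finset.sum_congr rfl (fun j _ => hd ⟨s, j⟩)]
    simp [mul_comm]
  rw [Finset.sum_congr rfl (fun s _ => h3 s)]
  rw [← Finset.sum_coe_sort T (fun s => (if hs : s ∈ T then d (some (fst38 hT ⟨s, hs⟩)) else 0) * s)]
  apply Finset.sum_congr rfl
  intro s _
  rw [dif_pos s.2]

private lemma exists_blocks38 {S : Type} {ar : S → ℕ} {N : Type} [Fintype N] (RN : Interp S ar N)
    (c : ℕ → ℕ) :
    ∃ (M : Type) (_ : Fintype M) (R : Interp (S ⊕ Sy38 T) (Sum.elim ar (ar38 T)) M),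
      Fintype.card M = Fintype.card N + ∑ s ∈ T, c s * s ∧ Blocks38 hT M R ∧
      ∃ e : N ≃ {x : M // R (Sum.inr (Sum.inl none)) (fun _ => x)},
        ∀ s w, RN s w ↔ R (Sum.inl s) (fun i => (e (w i)).1) := by
  classical
  let M : Type := N ⊕ Σ s : {s // s ∈ T}, Fin (c s.1) × Fin s.1
  let idx : M → Option (Pos38 T) := Sum.elim (fun _ => none) (fun q => some ⟨q.1, q.2.2⟩)
  let R : Interp (S ⊕ Sy38 T) (Sum.elim ar (ar38 T)) M := fun q =>
    match q with
    | Sum.inl s => fun w => ∃ u : Fin (ar s) → N, (w : Fin (ar s) → M) = (fun i => Sum.inl (u i)) ∧ RN s u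
    | Sum.inr (Sum.inl i) => fun w => idx (w (0 : Fin 1)) = i
    | Sum.inr (Sum.inr p) => fun w => ∃ k : Fin (c p.1.1),
        w (0 : Fin 2) = Sum.inr ⟨p.1, (k, ⟨0, hT p.1.1 p.1.2⟩)⟩ ∧
        w (1 : Fin 2) = Sum.inr ⟨p.1, (k, p.2)⟩
  refine ⟨M, inferInstance, R, ?_, ⟨?_, ?_⟩, ?_⟩
  · rw [Fintype.card_sum, Fintype.card_sigma]
    congr 1
    rw [← Finset.sum_coe_sort T (fun s => c s * s)]
    apply Finset.sum_congr rfl
    intro s _
    rw [Fintype.card_prod, Fintype.card_fin, Fintype.card_fin]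
  · intro x
    exact ⟨idx x, rfl, fun j hj => (show idx x = j from hj).symm⟩
  · intro p
    refine ⟨?_, ?_, ?_, ?_⟩
    · intro x hx
      have hx' : idx x = some (fst38 hT p.1) := hx
      rcases x with x | ⟨s, k, j⟩
      · simp [idx] at hx'
      · have h1 : (⟨s, j⟩ : Pos38 T) = fst38 hT p.1 := Option.some_injective _ hx'
        obtain ⟨p1, p2⟩ := p
        unfold fst38 at h1
        rw [Sigma.mk.injEq] at h1
        obtain ⟨rfl, h1⟩ := h1
        rw [heq_eq_eq] at h1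
        subst h1
        exact ⟨Sum.inr ⟨s, (k, p2)⟩, rfl, k, rfl, rfl⟩
    · intro y hy
      have hy' : idx y = some p := hy
      rcases y with y | ⟨s, k, j⟩
      · simp [idx] at hy'
      · have h1 : (⟨s, j⟩ : Pos38 T) = p := Option.some_injective _ hy'
        subst h1
        exact ⟨Sum.inr ⟨s, (k, ⟨0, hT s.1 s.2⟩)⟩, rfl, k, rfl, rfl⟩
    · rintro x y y' ⟨k, h1, h2⟩ ⟨k', h3, h4⟩
      have e1 : x = Sum.inr ⟨p.1, (k, ⟨0, hT p.1.1 p.1.2⟩)⟩ := h1
      have e2 : y = Sum.inr ⟨p.1, (k, p.2)⟩ := h2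
      have e3 : x = Sum.inr ⟨p.1, (k', ⟨0, hT p.1.1 p.1.2⟩)⟩ := h3
      have e4 : y' = Sum.inr ⟨p.1, (k', p.2)⟩ := h4
      rw [e1] at e3
      have e5 : k = k' := by
        have := Sum.inr.inj e3
        rw [Sigma.mk.injEq] at this
        have := this.2
        rw [heq_eq_eq, Prod.mk.injEq] at this
        exact this.1
      rw [e2, e4, e5]
    · rintro x x' y ⟨k, h1, h2⟩ ⟨k', h3, h4⟩
      have e1 : x = Sum.inr ⟨p.1, (k, ⟨0, hT p.1.1 p.1.2⟩)⟩ := h1
      have e2 : y = Sum.inr ⟨p.1, (k, p.2)⟩ := h2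
      have e3 : x' = Sum.inr ⟨p.1, (k', ⟨0, hT p.1.1 p.1.2⟩)⟩ := h3
      have e4 : y = Sum.inr ⟨p.1, (k', p.2)⟩ := h4
      rw [e2] at e4
      have e5 : k = k' := by
        have := Sum.inr.inj e4
        rw [Sigma.mk.injEq] at this
        have := this.2
        rw [heq_eq_eq, Prod.mk.injEq] at this
        exact this.1
      rw [e1, e3, e5]
  · refine ⟨⟨fun x => ⟨Sum.inl x, rfl⟩, fun y => match y with
      | ⟨Sum.inl x, _⟩ => x
      | ⟨Sum.inr q, hq⟩ => absurd (show (some (⟨q.1, q.2.2⟩ : Pos38 T)) = none from hq) (by simp),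
      fun x => rfl, ?_⟩, ?_⟩
    · rintro ⟨x | q, hq⟩
      · rfl
      · exact absurd (show (some (⟨q.1, q.2.2⟩ : Pos38 T)) = none from hq) (by simp)
    · intro s w
      constructor
      · intro h
        exact ⟨w, rfl, h⟩
      · rintro ⟨u, hu, h⟩
        have : w = u := by
          funext i
          exact Sum.inl.inj (congrFun hu i)
        rw [this]
        exact h

end

/-- **Adding a finitely generated monoid.** -/
theorem BR.add {r a : ℕ} {A : Set ℕ} (h : BR r a A) (hr : 3 ≤ r) (ha : 2 ≤ a) {T : Finset ℕ}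
    (hT : ∀ s ∈ T, 0 < s) : BR r a {n | ∃ x ∈ A, ∃ c : ℕ → ℕ, n = x + ∑ s ∈ T, c s * s} := by
  classical
  obtain ⟨S, hS, ar, P, h1, h2, rfl⟩ := h
  refine ⟨S ⊕ Sy38 T, inferInstance, Sum.elim ar (ar38 T), fun M R _ =>
    (P {x : M // R (Sum.inr (Sum.inl none)) (fun _ => x)} (fun s w => R (Sum.inl s) (fun i => (w i).1))
      Empty.elim) ∧ (∃ x : M, R (Sum.inr (Sum.inl none)) (fun _ => x)) ∧ Blocks38 hT M R, ?_, ?_, ?_⟩
  · rintro (s | s | s)
    · exact h1 s
    · exact le_trans (by norm_num) ha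
    · exact ha
  · refine (h2.relat (K := Sy38 T) (ark := ar38 T) (Sum.inl none)).and (FDr.and ?_
      ((Blocks38_FDr hT).mono hr))
    refine (FDr.ex1 (r := 0) ?_).mono (by omega)
    exact FDr.rel (S := S ⊕ Sy38 T) (ar := Sum.elim ar (ar38 T)) (Sum.inr (Sum.inl none))
      (pj1_38 (Sum.inr ()))
  · ext n
    constructor
    · rintro ⟨x, ⟨hx, N, hN, RN, hc, hP⟩, c, rfl⟩
      obtain ⟨M, hM, R, hcM, hB, e, he⟩ := exists_blocks38 hT RN c
      refine ⟨by omega, M, hM, R, by rw [hcM, hc], ?_, ?_, hB⟩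
      · have h3 := (h2.toFD.transport e RN Empty.elim).1 hP
        have e1 : (fun (s : S) (w : Fin (ar s) → {x : M // R (Sum.inr (Sum.inl none)) (fun _ => x)}) =>
            RN s (e.symm ∘ w)) = (fun s w => R (Sum.inl s) (fun i => (w i).1)) := by
          funext s w
          apply propext
          rw [he]
          exact Iff.of_eq (congrArg _ (funext (fun i => by
            rw [Function.comp_apply, Equiv.apply_symm_apply])))
        have e2 : (e ∘ (Empty.elim : Empty → N)) = Empty.elim := funext (fun a => a.elim)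
        rw [e1, e2] at h3
        exact h3
      · have hne : Nonempty N := by
          rw [← Fintype.card_pos_iff]
          omega
        obtain ⟨y⟩ := hne
        exact ⟨(e y).1, (e y).2⟩
    · rintro ⟨hn, M, hM, R, hc, hP, ⟨x, hx⟩, hB⟩
      obtain ⟨c, hcc⟩ := card_blocks38 hT R hB
      refine ⟨Fintype.card {x : M // R (Sum.inr (Sum.inl none)) (fun _ => x)}, ⟨?_, _, inferInstance, _,
        rfl, hP⟩, c, ?_⟩
      · exact Fintype.card_pos_iff.2 ⟨⟨x, hx⟩⟩
      · rw [← hc, hcc, Nat.card_eq_fintype_card]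

/-- the elements of the submonoid generated by a finite set -/
lemma mem_closure_iff38 {T : Finset ℕ} {m : ℕ} :
    m ∈ AddSubmonoid.closure (T : Set ℕ) ↔ ∃ c : ℕ → ℕ, m = ∑ s ∈ T, c s * s := by
  classical
  constructor
  · intro h
    induction h using AddSubmonoid.closure_induction with
    | mem x hx =>
      refine ⟨fun s => if s = x then 1 else 0, ?_⟩
      have hx' : x ∈ T := hx
      simp [hx']
    | zero => exact ⟨fun _ => 0, by simp⟩
    | add x y _ _ hx hy =>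
      obtain ⟨c, rfl⟩ := hx
      obtain ⟨d, rfl⟩ := hy
      refine ⟨fun s => c s + d s, ?_⟩
      rw [← Finset.sum_add_distrib]
      exact Finset.sum_congr rfl (fun s _ => by ring)
  · rintro ⟨c, rfl⟩
    refine AddSubmonoid.sum_mem _ (fun s hs => ?_)
    rw [← smul_eq_mul]
    exact AddSubmonoid.nsmul_mem _ (AddSubmonoid.subset_closure hs) _

/-- the form with the generated submonoid -/
theorem BR.add_closure {r a : ℕ} {A : Set ℕ} (h : BR r a A) (hr : 3 ≤ r) (ha : 2 ≤ a) {T : Finset ℕ}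
    (hT : ∀ s ∈ T, 0 < s) :
    BR r a {n | ∃ x ∈ A, ∃ m ∈ AddSubmonoid.closure (T : Set ℕ), n = x + m} := by
  have e : {n | ∃ x ∈ A, ∃ m ∈ AddSubmonoid.closure (T : Set ℕ), n = x + m} =
      {n | ∃ x ∈ A, ∃ c : ℕ → ℕ, n = x + ∑ s ∈ T, c s * s} := by
    ext n
    constructor
    · rintro ⟨x, hx, m, hm, rfl⟩
      obtain ⟨c, rfl⟩ := mem_closure_iff38.1 hm
      exact ⟨x, hx, c, rfl⟩
    · rintro ⟨x, hx, c, rfl⟩
      exact ⟨x, hx, _, mem_closure_iff38.2 ⟨c, rfl⟩, rfl⟩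
  rw [e]
  exact h.add hr ha hT

end Pool.Agent.Helper38.EX
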