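import Pool.Agent.Helper38.EX.C2red
import Pool.Agent.Helper29.C2.Final2
import Pool.Agent.Helper20.EX.Squares

/-!
# No class of the two-variable classification has exactly the rudimentary sets as its spectra
-/

set_option autoImplicit false

namespace Pool.Agent.Helper38.EX

open FirstOrder FirstOrder.Language Pool.Agent.Helper20.Spectra Pool.Agent.Helper29.C2

variable {Λ : Type}

lemma FDr.allFn {S : Type} {ar : S → ℕ} {r : ℕ} (n : ℕ) {Q : ∀ (M : Type), Interp S ar M → (Fin n → M) → Prop}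
    (h : FDr S ar r (Fin n) Q) : FDr S ar (r + n) Empty (fun M R _ => ∀ x : Fin n → M, Q M R x) := by
  have h1 : FDr S ar r (Empty ⊕ Fin n) (fun M R v => Q M R (v ∘ Sum.inr)) :=
    h.sub ⟨Sum.inr, fun _ _ => rfl⟩
  have h2 := FDr.all (P := fun M R _ x => Q M R x) h1
  rwa [Fintype.card_fin] at h2

lemma bgRel38 {r : ℕ} {α : Type} (l : Λ) (a b : α) :
    FDr Λ (fun _ => 2) r α (fun _ R v => R l ![v a, v b]) :=
  FDr.rel (S := Λ) (ar := fun _ => 2) l (pj2_38 a b)

/-- universal classes are first-order definable -/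
theorem defBg_of_univN [Finite Λ] {r : ℕ} {K : ∀ A : Type, (Λ → A → A → Prop) → Prop} (hK : UnivN r K) :
    DefBg r K := by
  obtain ⟨B, hB⟩ := hK
  have h1 : FDr Λ (fun _ => 2) 0 (Fin r) (fun M R v => ∃ τ : (Λ → Fin r → Fin r → Prop) × (Fin r → Fin r → Prop),
      B τ.1 τ.2 ∧ (∀ l, ∀ i, ∀ j, (R l ![v i, v j] ↔ τ.1 l i j)) ∧ ∀ i, ∀ j, (v i = v j ↔ τ.2 i j)) := by
    refine FDr.ex_fin fun τ => FDr.and (FDr.const _) (FDr.and ?_ ?_)
    · exact FDr.all_fin fun l => FDr.all_fin fun i => FDr.all_fin fun j =>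
        FDr.iff (bgRel38 l i j) (FDr.const _)
    · exact FDr.all_fin fun i => FDr.all_fin fun j => FDr.iff (FDr.eq (El.var i) (El.var j)) (FDr.const _)
  have h2 := FDr.allFn r h1
  rw [Nat.zero_add] at h2
  refine h2.congr fun M R v => ?_
  rw [hB]
  refine forall_congr' fun x => ?_
  constructor
  · intro h3
    exact ⟨(fun l i j => R l ![x i, x j], fun i j => x i = x j), h3, fun l i j => Iff.rfl, fun i j => Iff.rfl⟩
  · rintro ⟨τ, h3, h4, h5⟩
    have e1 : (fun l i j => R l ![x i, x j]) = τ.1 := by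
      funext l i j
      exact propext (h4 l i j)
    have e2 : (fun i j => x i = x j) = τ.2 := by
      funext i j
      exact propext (h5 i j)
    rw [e1, e2]
    exact h3

theorem univN_km (k m : ℕ) : UnivN 3 (KM k m) := by
  refine ⟨fun o e => (∀ i, ¬ o (Sum.inl i) 0 0 ∧ (o (Sum.inl i) 0 1 → o (Sum.inl i) 1 2 → o (Sum.inl i) 0 2) ∧
      (¬ e 0 1 → o (Sum.inl i) 0 1 ∨ o (Sum.inl i) 1 0)) ∧
    ∀ j, o (Sum.inr j) 0 0 ∧ (o (Sum.inr j) 0 1 → o (Sum.inr j) 1 0) ∧
      (o (Sum.inr j) 0 1 → o (Sum.inr j) 1 2 → o (Sum.inr j) 0 2), fun A R => ?_⟩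
  constructor
  · rintro ⟨h1, h2⟩ v
    exact ⟨fun i => ⟨(h1 i).irr _, (h1 i).trans _ _ _, fun h => (h1 i).total _ _ h⟩,
      fun j => ⟨(h2 j).refl _, fun h => (h2 j).symm h, fun h h' => (h2 j).trans h h'⟩⟩
  · intro H
    refine ⟨fun i => ⟨fun x => ?_, fun x y z => ?_, fun x y => ?_⟩, fun j => ⟨fun x => ?_, fun {x y} => ?_,
      fun {x y z} => ?_⟩⟩
    · exact ((H fun _ => x).1 i).1
    · exact ((H ![x, y, z]).1 i).2.1
    · exact ((H ![x, y, y]).1 i).2.2
    · exact ((H fun _ => x).2 j).1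
    · exact ((H ![x, y, y]).2 j).2.1
    · exact ((H ![x, y, z]).2 j).2.2

theorem defBg_pairAv {k : ℕ} (π : Equiv.Perm (Fin k)) : DefBg (max 3 k) (PairAv π) := by
  have h1 : UnivN 3 (fun (A : Type) (R : Bool → A → A → Prop) => ∀ b, IsLin (R b)) := by
    refine ⟨fun o e => ∀ b, ¬ o b 0 0 ∧ (o b 0 1 → o b 1 2 → o b 0 2) ∧ (¬ e 0 1 → o b 0 1 ∨ o b 1 0), fun A R => ?_⟩
    constructor
    · intro h v b
      exact ⟨(h b).irr _, (h b).trans _ _ _, fun h' => (h b).total _ _ h'⟩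
    · intro H b
      exact ⟨fun x => ((H fun _ => x) b).1, fun x y z => ((H ![x, y, z]) b).2.1, fun x y => ((H ![x, y, y]) b).2.2⟩
  have h2 : FDr Bool (fun _ => 2) k Empty (fun M R _ => Avoids π (fun l x y => R l ![x, y])) := by
    have h3 : FDr Bool (fun _ => 2) 0 (Fin k) (fun M R v =>
        ¬ ((∀ i, ∀ j, i < j → R true ![v i, v j]) ∧ ∀ i, ∀ j, π i < π j → R false ![v i, v j])) := by
      refine (FDr.and ?_ ?_).not
      · exact FDr.all_fin fun i => FDr.all_fin fun j => FDr.imp (FDr.const _) (bgRel38 true i j)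
      · exact FDr.all_fin fun i => FDr.all_fin fun j => FDr.imp (FDr.const _) (bgRel38 false i j)
    have h4 := FDr.allFn k h3
    rw [Nat.zero_add] at h4
    refine h4.congr fun M R v => ?_
    unfold Avoids
    exact not_exists
  exact FDr.and ((defBg_of_univN h1).mono (le_max_left _ _)) (h2.mono (le_max_right _ _))

/-- The spectra over the class are not exactly the rudimentary sets of positive integers. -/
def NeRud (K : ∀ A : Type, (Λ → A → A → Prop) → Prop) : Prop :=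
  ¬ ∀ S : Set ℕ, C2Spectrum K S ↔ (IsRudimentary S ∧ 0 ∉ S)

theorem neRud_of_wild [Finite Λ] {r : ℕ} {K : ∀ A : Type, (Λ → A → A → Prop) → Prop} (hK : DefBg r K)
    (hW : Wild K) : NeRud K :=
  ne_rud_of_universal (C := C2Spectrum K) (fun _ hA => (c2_br hK hA).powSq) hW.1

theorem neRud_of_periodic {K : ∀ A : Type, (Λ → A → A → Prop) → Prop}
    (hK : ∀ S, C2Spectrum K S → UltPeriodic S) : NeRud K :=
  Helper20.EX.ne_rud_of_periodic (C := C2Spectrum K) fun A hA => hK A hA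

theorem neRud_of_tame {K : ∀ A : Type, (Λ → A → A → Prop) → Prop} (hK : Tame K) : NeRud K := by
  refine neRud_of_periodic fun S hS => ?_
  obtain ⟨U, V, hU, hV, Φ, rfl⟩ := hS
  have h1 := hK U V Φ (Mso.sub 0 0)
  have e : {n : ℕ | 1 ≤ n ∧ ∃ M : Str Λ U V (Fin n), K (Fin n) M.ord ∧ (∀ e, Sat M Φ e) ∧
      MSat M.ord M.un (Mso.sub 0 0) (fun _ => ∅)} =
      {n : ℕ | 1 ≤ n ∧ ∃ M : Str Λ U V (Fin n), K (Fin n) M.ord ∧ ∀ e, Sat M Φ e} := by
    ext n
    constructor
    · rintro ⟨hn, M, h1, h2, -⟩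
      exact ⟨hn, M, h1, h2⟩
    · rintro ⟨hn, M, h1, h2⟩
      exact ⟨hn, M, h1, h2, fun _ h => h⟩
  rwa [e] at h1

theorem neRud_km (k m : ℕ) : NeRud (KM k m) := by
  by_cases h : k + m ≤ 1
  · exact neRud_of_tame (tame_km h)
  · exact neRud_of_wild (defBg_of_univN (univN_km k m)) (wild_km' (by omega))

theorem neRud_pOrd : NeRud POrd := by
  have h1 : DefBg 3 POrd := by
    rw [← eq_of_iff pOrd_iff]
    exact defBg_of_univN Pool.Agent.Helper80.PO.univN_pOrd
  exact neRud_of_wild h1 wild_pOrd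

theorem neRud_pOrdW (w : ℕ) : NeRud (POrdW w) := by
  by_cases h : w ≤ 1
  · exact neRud_of_tame (tame_pOrdW h)
  · exact neRud_of_wild (defBg_of_univN (univN_pOrdW w)) (wild_pOrdW (by omega))

theorem neRud_pOrdH (h : ℕ) : NeRud (POrdH h) := by
  by_cases hh : h ≤ 2
  · exact neRud_of_periodic ((pOrdH_result h).1 hh)
  · have h1 : DefBg (h + 3) (POrdH h) := by
      rw [← eq_of_iff (pOrdH_iff h)]
      exact defBg_of_univN (Pool.Agent.Helper80.PO.univN_pOrdH h)
    exact neRud_of_wild h1 ((pOrdH_result h).2 (by omega))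

theorem neRud_pairAv {k : ℕ} (π : Equiv.Perm (Fin k)) : NeRud (PairAv π) := by
  by_cases h : Pool.Agent.Helper29.SK.Short π
  · exact neRud_of_tame (Pool.Agent.Helper29.SK.tame_pairAv h)
  · exact neRud_of_wild (defBg_pairAv π) (wild_pairAv' h)

theorem neRud_graph : NeRud Graph := neRud_of_periodic graphs_result.1

theorem neRud_graphFree {m : ℕ} (P : SimpleGraph (Fin m)) (h : Wild (GraphFree P)) : NeRud (GraphFree P) := by
  rcases Nat.eq_zero_or_pos m with rfl | hm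
  · exact neRud_of_tame (graphs_result.2.1 0 P ⟨⟨⟨fun i => i.elim0, fun i => i.elim0⟩, fun {i} => i.elim0⟩⟩)
  · have h1 : DefBg (m + 2) (GraphFree P) := by
      rw [← eq_of_iff (gFree_iff P)]
      exact defBg_of_univN (Pool.Agent.Helper80.GF.univN_gFree hm P)
    exact neRud_of_wild h1 h

end Pool.Agent.Helper38.EX
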