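import Pool.Agent.Helper38.EX.BRc
import Pool.Agent.Helper29.C2.Defs

/-!
# Two-variable logic with counting quantifiers over a first-order definable class has bounded resources
-/

set_option autoImplicit false

namespace Pool.Agent.Helper38.EX

open FirstOrder FirstOrder.Language Pool.Agent.Helper20.Spectra Pool.Agent.Helper29.C2

variable {Λ U V : Type}

/-- the subformulas which start with a counting quantifier -/
def exs38 : Fm Λ U V → Set (Fm Λ U V)
  | Fm.eq => ∅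
  | Fm.ord _ _ => ∅
  | Fm.un _ _ => ∅
  | Fm.bin _ _ _ => ∅
  | Fm.neg φ => exs38 φ
  | Fm.and φ ψ => exs38 φ ∪ exs38 ψ
  | Fm.ex k v φ => insert (Fm.ex k v φ) (exs38 φ)

lemma exs38_finite : ∀ φ : Fm Λ U V, (exs38 φ).Finite
  | Fm.eq => Set.finite_empty
  | Fm.ord _ _ => Set.finite_empty
  | Fm.un _ _ => Set.finite_empty
  | Fm.bin _ _ _ => Set.finite_empty
  | Fm.neg φ => exs38_finite φ
  | Fm.and φ ψ => (exs38_finite φ).union (exs38_finite ψ)
  | Fm.ex _ _ φ => (exs38_finite φ).insert _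

/-- the counting number of a formula -/
def cnt38 : Fm Λ U V → ℕ
  | Fm.ex k _ _ => k
  | _ => 0

/-- all members of `T` are counting formulas, and `T` contains their subformulas -/
def Cl38 (T : Set (Fm Λ U V)) : Prop :=
  ∀ χ ∈ T, ∃ k v φ, χ = Fm.ex k v φ ∧ exs38 φ ⊆ T

lemma exs38_cl : ∀ (φ : Fm Λ U V) (χ : Fm Λ U V), χ ∈ exs38 φ →
    ∃ k v ψ, χ = Fm.ex k v ψ ∧ exs38 ψ ⊆ exs38 φ
  | Fm.eq, _, h => h.elim
  | Fm.ord _ _, _, h => h.elim
  | Fm.un _ _, _, h => h.elim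
  | Fm.bin _ _ _, _, h => h.elim
  | Fm.neg φ, χ, h => exs38_cl φ χ h
  | Fm.and φ ψ, χ, h => by
    rcases h with h | h
    · obtain ⟨k, v, ρ, h1, h2⟩ := exs38_cl φ χ h
      exact ⟨k, v, ρ, h1, h2.trans Set.subset_union_left⟩
    · obtain ⟨k, v, ρ, h1, h2⟩ := exs38_cl ψ χ h
      exact ⟨k, v, ρ, h1, h2.trans Set.subset_union_right⟩
  | Fm.ex k v φ, χ, h => by
    rcases h with h | h
    · exact ⟨k, v, φ, h, Set.subset_insert _ _⟩
    · obtain ⟨k', v', ρ, h1, h2⟩ := exs38_cl φ χ h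
      exact ⟨k', v', ρ, h1, h2.trans (Set.subset_insert _ _)⟩

/-- the symbols -/
abbrev Sy38 (T : Set (Fm Λ U V)) (N : ℕ) : Type := (Λ ⊕ (V ⊕ (T × Fin N))) ⊕ (U ⊕ T)

/-- the arities -/
abbrev ar38 (T : Set (Fm Λ U V)) (N : ℕ) : Sy38 T N → ℕ := Sum.elim (fun _ => 2) (fun _ => 1)

variable {T : Set (Fm Λ U V)} {N : ℕ}

/-- the structure of the unary and binary relations -/
def str38 {M : Type} (R : Interp (Sy38 T N) (ar38 T N) M) : Str Λ U V M where
  ord l x y := R (Sum.inl (Sum.inl l)) ![x, y]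
  un P x := R (Sum.inr (Sum.inl P)) ![x]
  bin E x y := R (Sum.inl (Sum.inr (Sum.inl E))) ![x, y]

/-- the translation of a formula: a counting formula is replaced by its unary symbol -/
def th38 {M : Type} (R : Interp (Sy38 T N) (ar38 T N) M) : Fm Λ U V → (Bool → M) → Prop
  | Fm.eq, e => e true = e false
  | Fm.ord l v, e => R (Sum.inl (Sum.inl l)) ![e v, e (!v)]
  | Fm.un P v, e => R (Sum.inr (Sum.inl P)) ![e v]
  | Fm.bin E v w, e => R (Sum.inl (Sum.inr (Sum.inl E))) ![e v, e w]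
  | Fm.neg φ, e => ¬ th38 R φ e
  | Fm.and φ ψ, e => th38 R φ e ∧ th38 R ψ e
  | Fm.ex k v φ, e => ∃ h : Fm.ex k v φ ∈ T, R (Sum.inr (Sum.inr ⟨_, h⟩)) ![e (!v)]

lemma pj2_38 {α : Type} (a b : α) : Pj α (Fin 2) (fun _ v => ![v a, v b]) :=
  ⟨![a, b], fun M v => by
    funext i
    refine Fin.cases rfl (fun i => ?_) i
    refine Fin.cases rfl (fun i => i.elim0) i⟩

lemma pj1_38 {α : Type} (a : α) : Pj α (Fin 1) (fun _ v => ![v a]) :=
  ⟨![a], fun M v => by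
    funext i
    refine Fin.cases rfl (fun i => i.elim0) i⟩

lemma th38_fdr : ∀ φ : Fm Λ U V, FDr (Sy38 T N) (ar38 T N) 0 Bool (fun _ R e => th38 R φ e)
  | Fm.eq => FDr.eq (El.var true) (El.var false)
  | Fm.ord l v => FDr.rel (S := Sy38 T N) (ar := ar38 T N) (Sum.inl (Sum.inl l)) (pj2_38 v (!v))
  | Fm.un P v => FDr.rel (S := Sy38 T N) (ar := ar38 T N) (Sum.inr (Sum.inl P)) (pj1_38 v)
  | Fm.bin E v w => FDr.rel (S := Sy38 T N) (ar := ar38 T N) (Sum.inl (Sum.inr (Sum.inl E))) (pj2_38 v w)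
  | Fm.neg φ => (th38_fdr φ).not
  | Fm.and φ ψ => (th38_fdr φ).and (th38_fdr ψ)
  | Fm.ex k v φ => by
    by_cases h : Fm.ex k v φ ∈ T
    · refine (FDr.rel (S := Sy38 T N) (ar := ar38 T N) (r := 0) (Sum.inr (Sum.inr ⟨_, h⟩))
        (pj1_38 (!v))).congr fun M R e => ?_
      constructor
      · rintro ⟨_, h1⟩
        exact h1
      · intro h1
        exact ⟨h, h1⟩
    · refine (FDr.const False).congr fun M R e => ?_
      constructor
      · rintro ⟨h1, _⟩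
        exact h h1
      · intro h1
        exact h1.elim

/-- the value of `v` is `y`, the value of the other variable is `x` -/
def upd38 {M : Type} (v : Bool) (x y : M) : Bool → M := Function.update (fun _ => x) v y

/-- the axioms for one counting formula -/
structure Ax38 {M : Type} (R : Interp (Sy38 T N) (ar38 T N) M) (k : ℕ) (v : Bool) (φ : Fm Λ U V)
    (h : Fm.ex k v φ ∈ T) : Prop where
  pos : ∀ x, R (Sum.inr (Sum.inr ⟨_, h⟩)) ![x] → ∀ i : Fin N, i.1 < k →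
    ∃ y, R (Sum.inl (Sum.inr (Sum.inr (⟨_, h⟩, i)))) ![x, y] ∧ th38 R φ (upd38 v x y)
  neg : ∀ x, ¬ R (Sum.inr (Sum.inr ⟨_, h⟩)) ![x] → 1 ≤ k ∧ ∀ y, th38 R φ (upd38 v x y) →
    ∃ i : Fin N, i.1 + 1 < k ∧ R (Sum.inl (Sum.inr (Sum.inr (⟨_, h⟩, i)))) ![x, y]
  inj : ∀ x y, ∀ i j : Fin N, R (Sum.inl (Sum.inr (Sum.inr (⟨_, h⟩, i)))) ![x, y] →
    R (Sum.inl (Sum.inr (Sum.inr (⟨_, h⟩, j)))) ![x, y] → i = j
  fn : ∀ x y z, ∀ i : Fin N, R (Sum.inl (Sum.inr (Sum.inr (⟨_, h⟩, i)))) ![x, y] →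
    R (Sum.inl (Sum.inr (Sum.inr (⟨_, h⟩, i)))) ![x, z] → y = z

lemma upd38_eq {M : Type} (v : Bool) (e : Bool → M) (a : M) : Function.update e v a = upd38 v (e (!v)) a := by
  unfold upd38
  funext b
  by_cases h : b = v
  · subst h
    rw [Function.update_self, Function.update_self]
  · rw [Function.update_of_ne h, Function.update_of_ne h]
    have h1 : b = !v := by
      cases b <;> cases v <;> simp_all
    rw [h1]

/-- all axioms -/
def Axs38 {M : Type} (R : Interp (Sy38 T N) (ar38 T N) M) : Prop :=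
  ∀ (k : ℕ) (v : Bool) (φ : Fm Λ U V) (h : Fm.ex k v φ ∈ T), Ax38 R k v φ h

theorem th38_iff {M : Type} [Finite M] (hN : ∀ k v φ, (Fm.ex k v φ : Fm Λ U V) ∈ T → k ≤ N)
    (R : Interp (Sy38 T N) (ar38 T N) M) (hR : Axs38 R) :
    ∀ φ : Fm Λ U V, exs38 φ ⊆ T → ∀ e : Bool → M, Sat (str38 R) φ e ↔ th38 R φ e
  | Fm.eq, _, _ => Iff.rfl
  | Fm.ord _ _, _, _ => Iff.rfl
  | Fm.un _ _, _, _ => Iff.rfl
  | Fm.bin _ _ _, _, _ => Iff.rfl
  | Fm.neg φ, h, e => not_congr (th38_iff hN R hR φ h e)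
  | Fm.and φ ψ, h, e => and_congr (th38_iff hN R hR φ (Set.subset_union_left.trans h) e)
      (th38_iff hN R hR ψ (Set.subset_union_right.trans h) e)
  | Fm.ex k v φ, h, e => by
    have hmem : Fm.ex k v φ ∈ T := h (Set.mem_insert _ _)
    have ih := th38_iff hN R hR φ ((Set.subset_insert _ _).trans h)
    have hax := hR k v φ hmem
    have hk := hN k v φ hmem
    have ih' : ∀ a, Sat (str38 R) φ (Function.update e v a) ↔ th38 R φ (upd38 v (e (!v)) a) := by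
      intro a
      rw [ih, upd38_eq]
    show k ≤ Nat.card {a : M // Sat (str38 R) φ (Function.update e v a)} ↔
      ∃ h : Fm.ex k v φ ∈ T, R (Sum.inr (Sum.inr ⟨_, h⟩)) ![e (!v)]
    constructor
    · intro h1
      refine ⟨hmem, ?_⟩
      by_contra h2
      obtain ⟨h3, h4⟩ := hax.neg _ h2
      choose i hi hi' using fun a : {a : M // Sat (str38 R) φ (Function.update e v a)} => h4 a.1 ((ih' a.1).1 a.2)
      have h5 : Function.Injective (fun a : {a : M // Sat (str38 R) φ (Function.update e v a)} =>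
          (⟨(i a).1, by have := hi a; omega⟩ : Fin (k - 1))) := by
        intro a b hab
        have h6 : i a = i b := by
          have := congrArg Fin.val hab
          exact Fin.ext this
        have h7 := hi' b
        rw [← h6] at h7
        exact Subtype.ext (hax.fn _ _ _ _ (hi' a) h7)
      have h8 := Nat.card_le_card_of_injective _ h5
      rw [Nat.card_eq_fintype_card (α := Fin (k - 1)), Fintype.card_fin] at h8
      omega
    · rintro ⟨_, h1⟩
      have h2 := hax.pos _ h1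
      choose y hy hy' using fun i : Fin k => h2 ⟨i.1, lt_of_lt_of_le i.2 hk⟩ i.2
      have h3 : Function.Injective (fun i : Fin k =>
          (⟨y i, (ih' (y i)).2 (hy' i)⟩ : {a : M // Sat (str38 R) φ (Function.update e v a)})) := by
        intro i j hij
        have h4 : y i = y j := congrArg Subtype.val hij
        have h5 := hy i
        rw [h4] at h5
        have h6 := hax.inj _ _ _ _ h5 (hy j)
        exact Fin.ext (by simpa using congrArg Fin.val h6)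
      have h8 := Nat.card_le_card_of_injective _ h3
      rw [Nat.card_eq_fintype_card (α := Fin k), Fintype.card_fin] at h8
      exact h8

/-- the body of a counting formula -/
def bd38 {M : Type} (M0 : Str Λ U V M) : Fm Λ U V → M → M → Prop
  | Fm.ex _ v φ, x, y => Sat M0 φ (upd38 v x y)
  | _, _, _ => False

/-- the expansion of a structure -/
noncomputable def exp38 (T : Set (Fm Λ U V)) (N : ℕ) {M : Type} [Finite M] (M0 : Str Λ U V M) :
    Interp (Sy38 T N) (ar38 T N) M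
  | Sum.inl (Sum.inl l) => fun (w : Fin 2 → M) => M0.ord l (w 0) (w 1)
  | Sum.inl (Sum.inr (Sum.inl E)) => fun (w : Fin 2 → M) => M0.bin E (w 0) (w 1)
  | Sum.inl (Sum.inr (Sum.inr (χ, i))) => fun (w : Fin 2 → M) =>
      ∃ h : bd38 M0 χ.1 (w 0) (w 1), (Finite.equivFin {y // bd38 M0 χ.1 (w 0) y} ⟨w 1, h⟩).1 = i.1
  | Sum.inr (Sum.inl P) => fun (w : Fin 1 → M) => M0.un P (w 0)
  | Sum.inr (Sum.inr χ) => fun (w : Fin 1 → M) => Sat M0 χ.1 (fun _ => w 0)

lemma th38_exp {M : Type} [Finite M] (M0 : Str Λ U V M) :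
    ∀ φ : Fm Λ U V, exs38 φ ⊆ T → ∀ e : Bool → M, th38 (exp38 T N M0) φ e ↔ Sat M0 φ e
  | Fm.eq, _, _ => Iff.rfl
  | Fm.ord _ _, _, _ => Iff.rfl
  | Fm.un _ _, _, _ => Iff.rfl
  | Fm.bin _ _ _, _, _ => Iff.rfl
  | Fm.neg φ, h, e => not_congr (th38_exp M0 φ h e)
  | Fm.and φ ψ, h, e => and_congr (th38_exp M0 φ (Set.subset_union_left.trans h) e)
      (th38_exp M0 ψ (Set.subset_union_right.trans h) e)
  | Fm.ex k v φ, h, e => by
    have hmem : Fm.ex k v φ ∈ T := h (Set.mem_insert _ _)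
    show (∃ h : Fm.ex k v φ ∈ T, k ≤ Nat.card {a : M // Sat M0 φ (Function.update (fun _ => e (!v)) v a)}) ↔
      k ≤ Nat.card {a : M // Sat M0 φ (Function.update e v a)}
    simp only [upd38_eq]
    exact ⟨fun ⟨_, h1⟩ => h1, fun h1 => ⟨hmem, h1⟩⟩

lemma axs38_exp {M : Type} [Finite M] (M0 : Str Λ U V M) (hT : Cl38 T)
    (hN : ∀ k v φ, (Fm.ex k v φ : Fm Λ U V) ∈ T → k ≤ N) : Axs38 (exp38 T N M0) := by
  intro k v φ h
  have hsub : exs38 φ ⊆ T := by
    obtain ⟨k', v', φ', h1, h2⟩ := hT _ h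
    injection h1 with _ _ h3
    rw [h3]
    exact h2
  have hk := hN k v φ h
  have hb : ∀ x y, bd38 M0 (Fm.ex k v φ) x y ↔ th38 (exp38 T N M0) φ (upd38 v x y) := fun x y =>
    (th38_exp M0 φ hsub _).symm
  refine ⟨?_, ?_, ?_, ?_⟩
  · intro x hx i hi
    have hx' : k ≤ Nat.card {y // bd38 M0 (Fm.ex k v φ) x y} := hx
    let y := (Finite.equivFin {y // bd38 M0 (Fm.ex k v φ) x y}).symm ⟨i.1, lt_of_lt_of_le hi hx'⟩
    refine ⟨y.1, ⟨y.2, ?_⟩, (hb x y.1).1 y.2⟩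
    show (Finite.equivFin {y // bd38 M0 (Fm.ex k v φ) x y} y).1 = i.1
    rw [Equiv.apply_symm_apply]
  · intro x hx
    have hx' : ¬ k ≤ Nat.card {y // bd38 M0 (Fm.ex k v φ) x y} := hx
    refine ⟨by omega, fun y hy => ?_⟩
    have hy' := (hb x y).2 hy
    have h1 := (Finite.equivFin {y // bd38 M0 (Fm.ex k v φ) x y} ⟨y, hy'⟩).2
    exact ⟨⟨(Finite.equivFin {y // bd38 M0 (Fm.ex k v φ) x y} ⟨y, hy'⟩).1, by omega⟩, by
      show (Finite.equivFin {y // bd38 M0 (Fm.ex k v φ) x y} ⟨y, hy'⟩).1 + 1 < k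
      omega, hy', rfl⟩
  · rintro x y i j ⟨h1, h2⟩ ⟨h3, h4⟩
    exact Fin.ext (h2.symm.trans h4)
  · rintro x y z i ⟨h1, h2⟩ ⟨h3, h4⟩
    have h5 := Fin.ext (h2.trans h4.symm)
    exact congrArg Subtype.val ((Finite.equivFin {y // bd38 M0 (Fm.ex k v φ) x y}).injective h5)

lemma pju38 {α : Type} (b : Bool) (a1 a2 : α) : Pj α Bool (fun _ v => upd38 b (v a1) (v a2)) := by
  refine ⟨Function.update (fun _ => a1) b a2, fun M v => ?_⟩
  funext c
  show Function.update (fun _ => v a1) b (v a2) c = v (Function.update (fun _ => a1) b a2 c)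
  by_cases h : c = b
  · subst h
    rw [Function.update_self, Function.update_self]
  · rw [Function.update_of_ne h, Function.update_of_ne h]

lemma ax38_fdr (k : ℕ) (b : Bool) (φ : Fm Λ U V) (h : Fm.ex k b φ ∈ T) :
    FDr (Sy38 T N) (ar38 T N) 3 Empty (fun _ R _ => Ax38 R k b φ h) := by
  have h1 : FDr (Sy38 T N) (ar38 T N) 2 Empty (fun M R _ => ∀ x : M, R (Sum.inr (Sum.inr ⟨_, h⟩)) ![x] →
      ∀ i : Fin N, i.1 < k →
        ∃ y, R (Sum.inl (Sum.inr (Sum.inr (⟨_, h⟩, i)))) ![x, y] ∧ th38 R φ (upd38 b x y)) := by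
    refine FDr.all1 (P := fun M R _ x => R (Sum.inr (Sum.inr ⟨_, h⟩)) ![x] →
      ∀ i : Fin N, i.1 < k →
        ∃ y, R (Sum.inl (Sum.inr (Sum.inr (⟨_, h⟩, i)))) ![x, y] ∧ th38 R φ (upd38 b x y)) ?_
    refine FDr.imp (FDr.rel (S := Sy38 T N) (ar := ar38 T N) (Sum.inr (Sum.inr ⟨_, h⟩)) (pj1_38 (Sum.inr ()))) ?_
    refine FDr.all_fin fun i => FDr.imp (FDr.const _) ?_
    refine FDr.ex1 (P := fun M R v y => R (Sum.inl (Sum.inr (Sum.inr (⟨_, h⟩, i)))) ![v (Sum.inr ()), y] ∧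
      th38 R φ (upd38 b (v (Sum.inr ())) y)) ?_
    exact FDr.and (FDr.rel (S := Sy38 T N) (ar := ar38 T N) (Sum.inl (Sum.inr (Sum.inr (⟨_, h⟩, i))))
      (pj2_38 (Sum.inl (Sum.inr ())) (Sum.inr ())))
      ((th38_fdr φ).sub (pju38 b (Sum.inl (Sum.inr ())) (Sum.inr ())))
  have h2 : FDr (Sy38 T N) (ar38 T N) 2 Empty (fun M R _ => ∀ x : M, ¬ R (Sum.inr (Sum.inr ⟨_, h⟩)) ![x] →
      1 ≤ k ∧ ∀ y, th38 R φ (upd38 b x y) →
        ∃ i : Fin N, i.1 + 1 < k ∧ R (Sum.inl (Sum.inr (Sum.inr (⟨_, h⟩, i)))) ![x, y]) := by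
    refine FDr.all1 (P := fun M R _ x => ¬ R (Sum.inr (Sum.inr ⟨_, h⟩)) ![x] →
      1 ≤ k ∧ ∀ y, th38 R φ (upd38 b x y) →
        ∃ i : Fin N, i.1 + 1 < k ∧ R (Sum.inl (Sum.inr (Sum.inr (⟨_, h⟩, i)))) ![x, y]) ?_
    refine FDr.imp (FDr.rel (S := Sy38 T N) (ar := ar38 T N) (Sum.inr (Sum.inr ⟨_, h⟩))
      (pj1_38 (Sum.inr ()))).not ?_
    refine FDr.and (FDr.const _) ?_
    refine FDr.all1 (P := fun M R v y => th38 R φ (upd38 b (v (Sum.inr ())) y) →
      ∃ i : Fin N, i.1 + 1 < k ∧ R (Sum.inl (Sum.inr (Sum.inr (⟨_, h⟩, i)))) ![v (Sum.inr ()), y]) ?_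
    refine FDr.imp ((th38_fdr φ).sub (pju38 b (Sum.inl (Sum.inr ())) (Sum.inr ()))) ?_
    exact FDr.ex_fin fun i => FDr.and (FDr.const _) (FDr.rel (S := Sy38 T N) (ar := ar38 T N)
      (Sum.inl (Sum.inr (Sum.inr (⟨_, h⟩, i)))) (pj2_38 (Sum.inl (Sum.inr ())) (Sum.inr ())))
  have h3 : FDr (Sy38 T N) (ar38 T N) 2 Empty (fun M R _ => ∀ x y : M, ∀ i j : Fin N,
      R (Sum.inl (Sum.inr (Sum.inr (⟨_, h⟩, i)))) ![x, y] →
        R (Sum.inl (Sum.inr (Sum.inr (⟨_, h⟩, j)))) ![x, y] → i = j) := by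
    refine FDr.all1 (P := fun M (R : Interp (Sy38 T N) (ar38 T N) M) _ x => ∀ y : M, ∀ i j : Fin N,
      R (Sum.inl (Sum.inr (Sum.inr (⟨_, h⟩, i)))) ![x, y] →
        R (Sum.inl (Sum.inr (Sum.inr (⟨_, h⟩, j)))) ![x, y] → i = j) ?_
    refine FDr.all1 (P := fun M (R : Interp (Sy38 T N) (ar38 T N) M) v y => ∀ i j : Fin N,
      R (Sum.inl (Sum.inr (Sum.inr (⟨_, h⟩, i)))) ![v (Sum.inr ()), y] →
        R (Sum.inl (Sum.inr (Sum.inr (⟨_, h⟩, j)))) ![v (Sum.inr ()), y] → i = j) ?_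
    exact FDr.all_fin fun i => FDr.all_fin fun j => FDr.imp
      (FDr.rel (S := Sy38 T N) (ar := ar38 T N)
        (Sum.inl (Sum.inr (Sum.inr (⟨_, h⟩, i)))) (pj2_38 (Sum.inl (Sum.inr ())) (Sum.inr ())))
      (FDr.imp (FDr.rel (S := Sy38 T N) (ar := ar38 T N)
        (Sum.inl (Sum.inr (Sum.inr (⟨_, h⟩, j)))) (pj2_38 (Sum.inl (Sum.inr ())) (Sum.inr ()))) (FDr.const _))
  have h4 : FDr (Sy38 T N) (ar38 T N) 3 Empty (fun M R _ => ∀ x y z : M, ∀ i : Fin N,
      R (Sum.inl (Sum.inr (Sum.inr (⟨_, h⟩, i)))) ![x, y] →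
        R (Sum.inl (Sum.inr (Sum.inr (⟨_, h⟩, i)))) ![x, z] → y = z) := by
    refine FDr.all1 (P := fun M (R : Interp (Sy38 T N) (ar38 T N) M) _ x => ∀ y z : M, ∀ i : Fin N,
      R (Sum.inl (Sum.inr (Sum.inr (⟨_, h⟩, i)))) ![x, y] →
        R (Sum.inl (Sum.inr (Sum.inr (⟨_, h⟩, i)))) ![x, z] → y = z) ?_
    refine FDr.all1 (P := fun M (R : Interp (Sy38 T N) (ar38 T N) M) v y => ∀ z : M, ∀ i : Fin N,
      R (Sum.inl (Sum.inr (Sum.inr (⟨_, h⟩, i)))) ![v (Sum.inr ()), y] →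
        R (Sum.inl (Sum.inr (Sum.inr (⟨_, h⟩, i)))) ![v (Sum.inr ()), z] → y = z) ?_
    refine FDr.all1 (P := fun M (R : Interp (Sy38 T N) (ar38 T N) M) v z => ∀ i : Fin N,
      R (Sum.inl (Sum.inr (Sum.inr (⟨_, h⟩, i)))) ![v (Sum.inl (Sum.inr ())), v (Sum.inr ())] →
        R (Sum.inl (Sum.inr (Sum.inr (⟨_, h⟩, i)))) ![v (Sum.inl (Sum.inr ())), z] → v (Sum.inr ()) = z) ?_
    exact FDr.all_fin fun i => FDr.imp
      (FDr.rel (S := Sy38 T N) (ar := ar38 T N)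
        (Sum.inl (Sum.inr (Sum.inr (⟨_, h⟩, i)))) (pj2_38 (Sum.inl (Sum.inl (Sum.inr ()))) (Sum.inl (Sum.inr ()))))
      (FDr.imp (FDr.rel (S := Sy38 T N) (ar := ar38 T N)
        (Sum.inl (Sum.inr (Sum.inr (⟨_, h⟩, i)))) (pj2_38 (Sum.inl (Sum.inl (Sum.inr ()))) (Sum.inr ())))
        (FDr.eq (El.var (Sum.inl (Sum.inr ()))) (El.var (Sum.inr ()))))
  refine ((h1.mono (by norm_num)).and ((h2.mono (by norm_num)).and ((h3.mono (by norm_num)).and h4))).congr
    fun M R v => ?_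
  constructor
  · intro hA
    exact ⟨hA.pos, hA.neg, hA.inj, hA.fn⟩
  · rintro ⟨a1, a2, a3, a4⟩
    exact ⟨a1, a2, a3, a4⟩

lemma axs38_fdr [Finite T] : FDr (Sy38 T N) (ar38 T N) 3 Empty (fun _ R _ => Axs38 R) := by
  have h1 : ∀ χ : T, FDr (Sy38 T N) (ar38 T N) 3 Empty (fun _ R _ => ∀ (k : ℕ) (v : Bool) (φ : Fm Λ U V)
      (h : χ.1 = Fm.ex k v φ), Ax38 R k v φ (h ▸ χ.2)) := by
    rintro ⟨χ, hχ⟩
    by_cases h : ∃ k v φ, χ = Fm.ex k v φ
    · obtain ⟨k, v, φ, rfl⟩ := h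
      refine (ax38_fdr k v φ hχ).congr fun M R e => ?_
      constructor
      · intro h1
        exact h1 k v φ rfl
      · intro h1 k' v' φ' h2
        injection h2 with h3 h4 h5
        subst h3 h4 h5
        exact h1
    · refine (FDr.const True).congr fun M R e => ⟨fun _ => trivial, fun _ k v φ h2 => ?_⟩
      exact (h ⟨k, v, φ, h2⟩).elim
  refine (FDr.all_fin h1).congr fun M R v => ?_
  constructor
  · intro h2 χ k v φ h3
    exact h2 k v φ _
  · intro h2 k v φ h3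
    exact h2 ⟨_, h3⟩ k v φ rfl

section mapv

variable {S S' : Type} {ar : S → ℕ} {ar' : S' → ℕ}

private lemma map_aux38 {α : Type} (g : S → S') (hg : ∀ s, ar' (g s) = ar s) :
    ∀ {m : ℕ} (φ : (RelLang S ar).BoundedFormula α m),
    ∃ ψ : (RelLang S' ar').BoundedFormula α m, qd ψ ≤ qd φ ∧
      ∀ (M : Type) (R : Interp S' ar' M) (v : α → M) (xs : Fin m → M),
        @BoundedFormula.Realize _ M (mkS R) _ _ ψ v xs ↔
          @BoundedFormula.Realize _ M (mkS (ar := ar) (fun s w => R (g s) (fun i => w (Fin.cast (hg s) i))))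
            _ _ φ v xs := by
  intro m φ
  induction φ with
  | falsum => exact ⟨.falsum, le_rfl, fun M R v xs => Iff.rfl⟩
  | @equal m t₁ t₂ =>
    rcases t₁ with x | ⟨f, _⟩
    · rcases t₂ with y | ⟨f, _⟩
      · exact ⟨.equal (Term.var x) (Term.var y), le_rfl, fun M R v xs => Iff.rfl⟩
      · exact Empty.elim f
    · exact Empty.elim f
  | @rel m l r ts =>
    obtain ⟨s, rfl⟩ := r
    have hts : ∀ i, ∃ x, ts i = Term.var x := by
      intro i
      rcases h : ts i with x | ⟨f, _⟩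
      · exact ⟨x, rfl⟩
      · exact Empty.elim f
    choose x hx using hts
    refine ⟨.rel (L := RelLang S' ar') (⟨g s, hg s⟩ : {t : S' // ar' t = ar s})
      (fun i => Term.var (x i)), le_rfl, fun M R v xs => ?_⟩
    obtain rfl : ts = fun i => Term.var (x i) := funext hx
    exact Iff.rfl
  | imp f g ihf ihg =>
    obtain ⟨f', hf, hf'⟩ := ihf
    obtain ⟨g', hg, hg'⟩ := ihg
    refine ⟨f'.imp g', ?_, fun M R v xs => ?_⟩
    · show max (qd f') (qd g') ≤ max (qd f) (qd g)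
      omega
    · exact imp_congr (hf' M R v xs) (hg' M R v xs)
  | all f ihf =>
    obtain ⟨f', hf, hf'⟩ := ihf
    refine ⟨f'.all, ?_, fun M R v xs => ?_⟩
    · show qd f' + 1 ≤ qd f + 1
      omega
    · exact forall_congr' (fun x => hf' M R v _)

lemma FDr.map {r : ℕ} {α : Type} (g : S → S') (hg : ∀ s, ar' (g s) = ar s)
    {P : ∀ (M : Type), Interp S ar M → (α → M) → Prop} (h : FDr S ar r α P) :
    FDr S' ar' r α (fun M R v => P M (fun s w => R (g s) (fun i => w (Fin.cast (hg s) i))) v) := by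
  obtain ⟨φ, hq, hφ⟩ := h
  obtain ⟨ψ, hψ, hψ'⟩ := map_aux38 g hg φ
  exact ⟨ψ, hψ.trans hq, fun M R v => (hψ' M R v default).trans (hφ M _ v)⟩

end mapv

/-- the background relations as an interpretation -/
def bg38 {M : Type} (R : Λ → M → M → Prop) : Interp Λ (fun _ => 2) M := fun l w => R l (w 0) (w 1)

/-- The class `K` of backgrounds is defined by a first-order sentence of quantifier rank at most `r`. -/
def DefBg (r : ℕ) (K : ∀ A : Type, (Λ → A → A → Prop) → Prop) : Prop :=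
  FDr Λ (fun _ => 2) r Empty (fun M R _ => K M (fun l x y => R l ![x, y]))

/-- **The two-variable spectra over a first-order definable class have bounded resources.** -/
theorem c2_br [Finite Λ] {r : ℕ} {K : ∀ A : Type, (Λ → A → A → Prop) → Prop} (hK : DefBg r K) {S : Set ℕ}
    (hS : C2Spectrum K S) : BR (max r 3) 2 S := by
  obtain ⟨U, V, hU, hV, Φ, rfl⟩ := hS
  have hT : Finite (exs38 Φ) := exs38_finite Φ
  obtain ⟨N, hN⟩ : ∃ N, ∀ k v φ, (Fm.ex k v φ : Fm Λ U V) ∈ exs38 Φ → k ≤ N := by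
    obtain ⟨N, hN⟩ := ((exs38_finite Φ).image cnt38).bddAbove
    exact ⟨N, fun k v φ h => hN ⟨_, h, rfl⟩⟩
  let T := exs38 Φ
  have hcl : Cl38 T := exs38_cl Φ
  let P : ∀ (M : Type), Interp (Sy38 T N) (ar38 T N) M → (Empty → M) → Prop := fun M R _ =>
    K M (str38 R).ord ∧ Axs38 R ∧ ∀ e : Bool → M, th38 R Φ e
  have hP : FDr (Sy38 T N) (ar38 T N) (max r 3) Empty P := by
    refine FDr.and ?_ (FDr.and ((axs38_fdr (T := T) (N := N)).mono (le_max_right _ _)) ?_)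
    · have h1 := FDr.map (S' := Sy38 T N) (ar' := ar38 T N) (fun l => Sum.inl (Sum.inl l)) (fun _ => rfl) hK
      exact h1.mono (le_max_left _ _)
    · have h1 : FDr (Sy38 T N) (ar38 T N) 0 (Empty ⊕ Bool) (fun M R v => th38 R Φ (v ∘ Sum.inr)) :=
        (th38_fdr Φ).sub ⟨Sum.inr, fun _ _ => rfl⟩
      have h2 := FDr.all (P := fun M R _ e => th38 R Φ e) h1
      exact h2.mono (by rw [Fintype.card_bool]; omega)
  refine ⟨Sy38 T N, inferInstance, ar38 T N, P, ?_, hP, ?_⟩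
  · rintro (s | s)
    · exact le_rfl
    · exact one_le_two
  · ext n
    constructor
    · rintro ⟨hn, M, hM, hS⟩
      refine ⟨hn, Fin n, inferInstance, exp38 T N M, Fintype.card_fin n, hM, axs38_exp M hcl hN, fun e => ?_⟩
      exact (th38_exp M Φ subset_rfl e).2 (hS e)
    · rintro ⟨hn, M, hM, R, hc, hR⟩
      let e : M ≃ Fin n := Fintype.equivFinOfCardEq hc
      have h1 := (hP.toFD.transport e R Empty.elim).1 hR
      obtain ⟨h2, h3, h4⟩ := h1
      exact ⟨hn, _, h2, fun e' => (th38_iff hN _ h3 Φ subset_rfl e').2 (h4 e')⟩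

end Pool.Agent.Helper38.EX
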