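import Pool.Agent.Helper38.EX.BR

/-!
# Uniform definability with bounded quantifier rank

`FDr S ar r α P`: the predicate `P` is defined by a first-order formula of quantifier rank at most `r`. Same
interface as `FD`.
-/

set_option autoImplicit false

namespace Pool.Agent.Helper38.EX

open FirstOrder FirstOrder.Language Pool.Agent.Helper20.Spectra

/-- quantifier rank -/
def qd {L : FirstOrder.Language.{0, 0}} {α : Type} : ∀ {m : ℕ}, L.BoundedFormula α m → ℕ
  | _, .falsum => 0
  | _, .equal _ _ => 0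
  | _, .rel _ _ => 0
  | _, .imp f g => max (qd f) (qd g)
  | _, .all f => qd f + 1

section

variable {L L' : FirstOrder.Language.{0, 0}} {α β : Type}

lemma ctx_le_qd : ∀ {m : ℕ} (φ : L.BoundedFormula Empty m), ctx φ ≤ m + qd φ
  | _, .falsum => le_rfl
  | _, .equal _ _ => le_rfl
  | _, .rel _ _ => le_rfl
  | m, .imp f g => by
    have h1 := ctx_le_qd f
    have h2 := ctx_le_qd g
    show max (ctx f) (ctx g) ≤ m + max (qd f) (qd g)
    omega
  | m, .all f => by
    have h1 := ctx_le_qd f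
    show ctx f ≤ m + (qd f + 1)
    omega

lemma qd_castLE : ∀ {m n : ℕ} (h : m ≤ n) (φ : L.BoundedFormula α m), qd (φ.castLE h) = qd φ
  | _, _, _, .falsum => rfl
  | _, _, _, .equal _ _ => rfl
  | _, _, _, .rel _ _ => rfl
  | _, _, h, .imp f g => by
    show max (qd (f.castLE h)) (qd (g.castLE h)) = max (qd f) (qd g)
    rw [qd_castLE h f, qd_castLE h g]
  | _, _, h, .all f => by
    show qd (f.castLE _) + 1 = qd f + 1
    rw [qd_castLE _ f]

lemma qd_mapTermRel {g : ℕ → ℕ} (ft : ∀ n, L.Term (α ⊕ (Fin n)) → L'.Term (β ⊕ (Fin (g n))))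
    (fr : ∀ n, L.Relations n → L'.Relations n)
    (h : ∀ n, L'.BoundedFormula β (g (n + 1)) → L'.BoundedFormula β (g n + 1))
    (hh : ∀ n φ, qd (h n φ) = qd φ) :
    ∀ {n : ℕ} (φ : L.BoundedFormula α n), qd (φ.mapTermRel ft fr h) = qd φ
  | _, .falsum => rfl
  | _, .equal _ _ => rfl
  | _, .rel _ _ => rfl
  | _, .imp φ ψ => by
    show max (qd (φ.mapTermRel ft fr h)) (qd (ψ.mapTermRel ft fr h)) = max (qd φ) (qd ψ)
    rw [qd_mapTermRel ft fr h hh φ, qd_mapTermRel ft fr h hh ψ]
  | _, .all φ => by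
    show qd (h _ (φ.mapTermRel ft fr h)) + 1 = qd φ + 1
    rw [hh, qd_mapTermRel ft fr h hh φ]

lemma qd_relabel {n : ℕ} (g : α → β ⊕ (Fin n)) {k : ℕ} (φ : L.BoundedFormula α k) :
    qd (φ.relabel g) = qd φ :=
  qd_mapTermRel _ _ _ (fun _ _ => qd_castLE _ _) φ

end

variable {S : Type} {ar : S → ℕ}

/-- uniform definability by a formula of quantifier rank at most `r` -/
def FDr (S : Type) (ar : S → ℕ) (r : ℕ) (α : Type)
    (P : ∀ (M : Type), Interp S ar M → (α → M) → Prop) : Prop :=
  ∃ φ : (RelLang S ar).Formula α, qd φ ≤ r ∧ ∀ (M : Type) (R : Interp S ar M) (v : α → M),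
    @Formula.Realize _ M (mkS R) _ φ v ↔ P M R v

namespace FDr

variable {r r' : ℕ} {α β : Type}

lemma toFD {P : ∀ (M : Type), Interp S ar M → (α → M) → Prop} (h : FDr S ar r α P) :
    FD S ar α P := by
  obtain ⟨φ, -, hφ⟩ := h
  exact ⟨φ, hφ⟩

lemma mono {P : ∀ (M : Type), Interp S ar M → (α → M) → Prop} (h : FDr S ar r α P)
    (hr : r ≤ r') : FDr S ar r' α P := by
  obtain ⟨φ, hq, hφ⟩ := h
  exact ⟨φ, hq.trans hr, hφ⟩

lemma congr {P Q : ∀ (M : Type), Interp S ar M → (α → M) → Prop} (h : FDr S ar r α P)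
    (hPQ : ∀ M R v, Q M R v ↔ P M R v) : FDr S ar r α Q := by
  obtain ⟨φ, hq, hφ⟩ := h
  exact ⟨φ, hq, fun M R v => (hφ M R v).trans (hPQ M R v).symm⟩

lemma const (p : Prop) : FDr S ar r α (fun _ _ _ => p) := by
  by_cases hp : p
  · refine ⟨(⊥ : (RelLang S ar).Formula α).not, Nat.zero_le _, fun M R v => ?_⟩
    let _ := mkS R
    simp only [hp, iff_true]
    rw [Formula.realize_not]
    exact fun h => Formula.realize_bot.1 h
  · refine ⟨⊥, Nat.zero_le _, fun M R v => ?_⟩
    let _ := mkS R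
    simp only [hp, iff_false]
    exact Formula.realize_bot.1

lemma eq {a b : ∀ (M : Type), (α → M) → M} (ha : El α a) (hb : El α b) :
    FDr S ar r α (fun M _ v => a M v = b M v) := by
  obtain ⟨a, ha⟩ := ha
  obtain ⟨b, hb⟩ := hb
  refine ⟨Term.equal (Term.var a) (Term.var b), Nat.zero_le _, fun M R v => ?_⟩
  let _ := mkS R
  beta_reduce
  rw [ha, hb]
  simp [Formula.realize_equal]

lemma rel (s : S) {f : ∀ (M : Type), (α → M) → (Fin (ar s) → M)} (hf : Pj α (Fin (ar s)) f) :
    FDr S ar r α (fun M R v => R s (f M v)) := by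
  obtain ⟨g, hg⟩ := hf
  let q : (RelLang S ar).Relations (ar s) := (⟨s, rfl⟩ : {t : S // ar t = ar s})
  refine ⟨Relations.formula (L := RelLang S ar) q (fun i => Term.var (g i)), Nat.zero_le _,
    fun M R v => ?_⟩
  let _ := mkS R
  beta_reduce
  rw [hg, Formula.realize_rel]
  rfl

lemma not {P : ∀ (M : Type), Interp S ar M → (α → M) → Prop} (h : FDr S ar r α P) :
    FDr S ar r α (fun M R v => ¬ P M R v) := by
  obtain ⟨φ, hq, hφ⟩ := h
  refine ⟨φ.not, ?_, fun M R v => ?_⟩
  · show max (qd φ) 0 ≤ r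
    omega
  · let _ := mkS R
    rw [Formula.realize_not, hφ]

lemma imp {P Q : ∀ (M : Type), Interp S ar M → (α → M) → Prop} (h : FDr S ar r α P)
    (h' : FDr S ar r α Q) : FDr S ar r α (fun M R v => P M R v → Q M R v) := by
  obtain ⟨φ, hq, hφ⟩ := h
  obtain ⟨ψ, hq', hψ⟩ := h'
  refine ⟨φ.imp ψ, ?_, fun M R v => ?_⟩
  · show max (qd φ) (qd ψ) ≤ r
    omega
  · let _ := mkS R
    rw [Formula.realize_imp, hφ, hψ]

lemma and {P Q : ∀ (M : Type), Interp S ar M → (α → M) → Prop} (h : FDr S ar r α P)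
    (h' : FDr S ar r α Q) : FDr S ar r α (fun M R v => P M R v ∧ Q M R v) :=
  (h.imp h'.not).not.congr (fun M R v => by tauto)

lemma or {P Q : ∀ (M : Type), Interp S ar M → (α → M) → Prop} (h : FDr S ar r α P)
    (h' : FDr S ar r α Q) : FDr S ar r α (fun M R v => P M R v ∨ Q M R v) :=
  (h.not.imp h').congr (fun M R v => by tauto)

lemma iff {P Q : ∀ (M : Type), Interp S ar M → (α → M) → Prop} (h : FDr S ar r α P)
    (h' : FDr S ar r α Q) : FDr S ar r α (fun M R v => (P M R v ↔ Q M R v)) :=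
  ((h.imp h').and (h'.imp h)).congr (fun M R v => by tauto)

/-- substitution of variables -/
lemma sub {P : ∀ (M : Type), Interp S ar M → (β → M) → Prop}
    {f : ∀ (M : Type), (α → M) → (β → M)} (hf : Pj α β f) (h : FDr S ar r β P) :
    FDr S ar r α (fun M R v => P M R (f M v)) := by
  obtain ⟨g, hg⟩ := hf
  obtain ⟨φ, hq, hφ⟩ := h
  refine ⟨φ.relabel g, ?_, fun M R v => ?_⟩
  · have h1 : qd (φ.relabel g) = qd φ := qd_relabel (Sum.inl ∘ g) φ
    rw [h1]
    exact hq
  · let _ := mkS R
    beta_reduce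
    rw [Formula.realize_relabel, hφ, hg]

lemma all1 {P : ∀ (M : Type), Interp S ar M → (α → M) → M → Prop}
    (h : FDr S ar r (α ⊕ Unit) (fun M R v => P M R (v ∘ Sum.inl) (v (Sum.inr ())))) :
    FDr S ar (r + 1) α (fun M R v => ∀ x : M, P M R v x) := by
  obtain ⟨φ, hq, hφ⟩ := h
  let g : α ⊕ Unit → α ⊕ Fin 1 := Sum.map id (fun _ => 0)
  let ψ : (RelLang S ar).BoundedFormula α (0 + 1) := BoundedFormula.relabel (n := 1) (k := 0) g φ
  refine ⟨ψ.all, ?_, fun M R v => ?_⟩
  · show qd ψ + 1 ≤ r + 1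
    have h1 : qd ψ = qd φ := qd_relabel (n := 1) g φ
    omega
  · let _ := mkS R
    have h1 : ∀ (x : M), ψ.Realize v (Fin.snoc (default : Fin 0 → M) x) ↔ P M R v x := by
      intro x
      have h2 := hφ M R (Sum.elim v (fun _ : Unit => x))
      have h3 : P M R (Sum.elim v (fun _ : Unit => x) ∘ Sum.inl)
          (Sum.elim v (fun _ : Unit => x) (Sum.inr ())) ↔ P M R v x := by
        rw [Sum.elim_comp_inl]
        rfl
      refine Iff.trans (Iff.trans ?_ h2) h3
      show (BoundedFormula.relabel (n := 1) (k := 0) g φ).Realize v _ ↔ _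
      rw [BoundedFormula.realize_relabel]
      unfold Formula.Realize
      have h4 : (Sum.elim v ((Fin.snoc (default : Fin 0 → M) x : Fin (1 + 0) → M) ∘ Fin.castAdd 0) ∘ g) =
          Sum.elim v (fun _ : Unit => x) := by
        funext a
        rcases a with a | a
        · rfl
        · rfl
      rw [h4]
      have h5 : ((Fin.snoc (default : Fin 0 → M) x : Fin (1 + 0) → M) ∘ Fin.natAdd 1) =
          (default : Fin 0 → M) := Subsingleton.elim _ _
      rw [h5]
    show (∀ x : M, ψ.Realize v (Fin.snoc (default : Fin 0 → M) x)) ↔ _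
    exact forall_congr' h1

lemma ex1 {P : ∀ (M : Type), Interp S ar M → (α → M) → M → Prop}
    (h : FDr S ar r (α ⊕ Unit) (fun M R v => P M R (v ∘ Sum.inl) (v (Sum.inr ())))) :
    FDr S ar (r + 1) α (fun M R v => ∃ x : M, P M R v x) :=
  (FDr.all1 (P := fun M R v x => ¬ P M R v x) h.not).not.congr (fun M R v => by
    simp only [not_forall, not_not])

private lemma allFin38 : ∀ (n : ℕ) {α : Type} {r : ℕ}
    {P : ∀ (M : Type), Interp S ar M → (α → M) → (Fin n → M) → Prop},
    FDr S ar r (α ⊕ Fin n) (fun M R v => P M R (v ∘ Sum.inl) (v ∘ Sum.inr)) →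
    FDr S ar (r + n) α (fun M R v => ∀ x : Fin n → M, P M R v x)
  | 0, α, r, P, h => by
    have h1 : FDr S ar r α (fun M R v => P M R v (fun i => i.elim0)) := by
      have h2 := FDr.sub (α := α) (β := α ⊕ Fin 0)
        (f := fun M v => Sum.elim v (fun i => i.elim0))
        ⟨Sum.elim id (fun i => i.elim0), fun M v => by
          funext a
          rcases a with a | a
          · rfl
          · exact a.elim0⟩ h
      refine h2.congr (fun M R v => ?_)
      rw [Sum.elim_comp_inl, Sum.elim_comp_inr]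
    refine h1.congr (fun M R v => ?_)
    constructor
    · intro h2
      exact h2 _
    · intro h2 x
      have : x = fun i => i.elim0 := funext (fun i => i.elim0)
      rw [this]
      exact h2
  | n + 1, α, r, P, h => by
    have h1 : FDr S ar r ((α ⊕ Unit) ⊕ Fin n) (fun M R v =>
        P M R ((v ∘ Sum.inl) ∘ Sum.inl) (Fin.cons (v (Sum.inl (Sum.inr ()))) (v ∘ Sum.inr))) := by
      have h2 := FDr.sub (α := (α ⊕ Unit) ⊕ Fin n) (β := α ⊕ Fin (n + 1))
        (f := fun M v => Sum.elim (fun a => v (Sum.inl (Sum.inl a)))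
          (Fin.cons (v (Sum.inl (Sum.inr ()))) (fun i => v (Sum.inr i))))
        ⟨Sum.elim (fun a => Sum.inl (Sum.inl a)) (Fin.cons (Sum.inl (Sum.inr ()))
          (fun i => Sum.inr i)), fun M v => by
          funext a
          rcases a with a | a
          · rfl
          · refine Fin.cases ?_ (fun i => ?_) a
            · rfl
            · rfl⟩ h
      refine h2.congr (fun M R v => ?_)
      rw [Sum.elim_comp_inl, Sum.elim_comp_inr]
      rfl
    have h3 : FDr S ar (r + n) (α ⊕ Unit) (fun M R v => ∀ x : Fin n → M,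
        P M R (v ∘ Sum.inl) (Fin.cons (v (Sum.inr ())) x)) :=
      allFin38 n (P := fun M R v x => P M R (v ∘ Sum.inl) (Fin.cons (v (Sum.inr ())) x)) h1
    have h4 : FDr S ar (r + n + 1) α (fun M R v => ∀ y : M, ∀ x : Fin n → M,
        P M R v (Fin.cons y x)) :=
      FDr.all1 (P := fun M R v y => ∀ x : Fin n → M, P M R v (Fin.cons y x)) h3
    refine FDr.congr h4 (fun M R v => ?_)
    constructor
    · intro h5 y x
      exact h5 _
    · intro h5 x
      have h6 := h5 (x 0) (Fin.tail x)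
      rw [Fin.cons_self_tail] at h6
      exact h6

lemma all [Fintype β] {P : ∀ (M : Type), Interp S ar M → (α → M) → (β → M) → Prop}
    (h : FDr S ar r (α ⊕ β) (fun M R v => P M R (v ∘ Sum.inl) (v ∘ Sum.inr))) :
    FDr S ar (r + Fintype.card β) α (fun M R v => ∀ x : β → M, P M R v x) := by
  classical
  let e := Fintype.equivFin β
  have h1 : FDr S ar r (α ⊕ Fin (Fintype.card β)) (fun M R v =>
      P M R (v ∘ Sum.inl) (fun b => v (Sum.inr (e b)))) := by
    have h2 := FDr.sub (α := α ⊕ Fin (Fintype.card β)) (β := α ⊕ β)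
      (f := fun M v => Sum.elim (fun a => v (Sum.inl a)) (fun b => v (Sum.inr (e b))))
      ⟨Sum.elim (fun a => Sum.inl a) (fun b => Sum.inr (e b)), fun M v => by
        funext a
        rcases a with a | a <;> rfl⟩ h
    refine h2.congr (fun M R v => ?_)
    rw [Sum.elim_comp_inl, Sum.elim_comp_inr]
    rfl
  have h3 := allFin38 (Fintype.card β)
    (P := fun M R v x => P M R v (fun b => x (e b))) h1
  refine FDr.congr h3 (fun M R v => ?_)
  constructor
  · intro h4 x
    exact h4 _
  · intro h4 x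
    have h5 := h4 (fun i => x (e.symm i))
    simpa using h5

lemma ex [Fintype β] {P : ∀ (M : Type), Interp S ar M → (α → M) → (β → M) → Prop}
    (h : FDr S ar r (α ⊕ β) (fun M R v => P M R (v ∘ Sum.inl) (v ∘ Sum.inr))) :
    FDr S ar (r + Fintype.card β) α (fun M R v => ∃ x : β → M, P M R v x) :=
  (FDr.all (P := fun M R v x => ¬ P M R v x) h.not).not.congr (fun M R v => by
    simp only [not_forall, not_not])

private lemma all_finset38 {γ : Type} (s : Finset γ)
    {P : γ → ∀ (M : Type), Interp S ar M → (α → M) → Prop}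
    (h : ∀ c ∈ s, FDr S ar r α (P c)) : FDr S ar r α (fun M R v => ∀ c ∈ s, P c M R v) := by
  classical
  induction s using Finset.induction_on with
  | empty => exact (FDr.const True).congr (fun M R v => by simp)
  | insert c s hc ih =>
    refine ((h c (Finset.mem_insert_self c s)).and
      (ih (fun d hd => h d (Finset.mem_insert_of_mem hd)))).congr (fun M R v => ?_)
    simp only [Finset.forall_mem_insert]

lemma all_fin {γ : Type} [Finite γ] {P : γ → ∀ (M : Type), Interp S ar M → (α → M) → Prop}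
    (h : ∀ c, FDr S ar r α (P c)) : FDr S ar r α (fun M R v => ∀ c, P c M R v) := by
  have := Fintype.ofFinite γ
  exact (all_finset38 Finset.univ (fun c _ => h c)).congr (fun M R v => by simp)

lemma ex_fin {γ : Type} [Finite γ] {P : γ → ∀ (M : Type), Interp S ar M → (α → M) → Prop}
    (h : ∀ c, FDr S ar r α (P c)) : FDr S ar r α (fun M R v => ∃ c, P c M R v) :=
  (FDr.all_fin (P := fun c M R v => ¬ P c M R v) (fun c => (h c).not)).not.congr
    (fun M R v => by simp only [not_forall, not_not])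

/-- **Bounded rank gives bounded resources.** Any number of symbols, all of arity at most `k - r`. -/
theorem ts [Finite S] {k : ℕ} {P : ∀ (M : Type), Interp S ar M → (Empty → M) → Prop}
    (h : FDr S ar r Empty P) (hr : r ≤ k) (hk : ∀ s, r + ar s ≤ k) :
    TS k {n : ℕ | 1 ≤ n ∧ ∃ (M : Type) (_ : Fintype M) (R : Interp S ar M),
      Fintype.card M = n ∧ P M R Empty.elim} := by
  obtain ⟨φ, hq, hφ⟩ := h
  have h1 : ctx (L := RelLang S ar) (m := 0) φ ≤ r := by
    have h2 := ctx_le_qd (L := RelLang S ar) (m := 0) φ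
    omega
  have h3 : TS k (spec (L := RelLang S ar) φ) := by
    refine ts_of_ctx φ hr h1 ?_ ?_
    · rintro ⟨l, f⟩
      exact Empty.elim f
    · rintro ⟨l, s, rfl⟩
      exact hk s
  have h4 : spec (L := RelLang S ar) φ = {n : ℕ | 1 ≤ n ∧ ∃ (M : Type) (_ : Fintype M)
      (R : Interp S ar M), Fintype.card M = n ∧ P M R Empty.elim} := by
    ext n
    constructor
    · rintro ⟨hn, M, hM, hf, hc, hr⟩
      have e := structure_eq hM
      refine ⟨hn, M, hf, _, hc, (hφ M (fun s v => hM.RelMap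
        (⟨s, rfl⟩ : (RelLang S ar).Relations (ar s)) v) Empty.elim).1 ?_⟩
      rw [← e]
      exact (real_iff hM φ Empty.elim default).2 hr
    · rintro ⟨hn, M, hf, R, hc, hP⟩
      refine ⟨hn, M, mkS R, hf, hc, ?_⟩
      exact (real_iff (mkS R) φ Empty.elim default).1 ((hφ M R Empty.elim).2 hP)
  rw [← h4]
  exact h3

theorem powSq [Finite S] {k : ℕ} {P : ∀ (M : Type), Interp S ar M → (Empty → M) → Prop}
    (h : FDr S ar r Empty P) (hr : r ≤ k) (hk : ∀ s, r + ar s ≤ k) :
    PowSq (k + 1) {n : ℕ | 1 ≤ n ∧ ∃ (M : Type) (_ : Fintype M) (R : Interp S ar M),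
      Fintype.card M = n ∧ P M R Empty.elim} :=
  (h.ts hr hk).powSq

end FDr

end Pool.Agent.Helper38.EX
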