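import Pool.Agent.Helper38.EX.PVred
import Pool.Agent.Helper20.PV.Main
import Pool.Agent.Helper20.EX.Squares

/-!
# No prefix-vocabulary class has exactly the rudimentary sets as its spectra
-/

set_option autoImplicit false

namespace Pool.Agent.Helper38.EX

open FirstOrder FirstOrder.Language Pool.Agent.Helper20.Spectra Pool.Agent.Helper20.OP
  Pool.Agent.Helper20.PV Pool.Agent.Helper20.EX

/-- The spectra of a prefix-vocabulary class are never exactly the rudimentary sets of positive integers. -/
theorem pv_ne_rud (q : ℕ → Bool) (r k : ℕ) (ar : Fin k → ℕ) (mon : Bool) :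
    ¬ ∀ A : Set ℕ, VocSpectrum q r ar mon A ↔ (IsRudimentary A ∧ 0 ∉ A) := by
  by_cases h : WildClass q r ar mon
  · obtain ⟨⟨U, hU1, hU2⟩, -⟩ := (pv_main q r k ar mon).1 h
    exact ne_rud_of_universal (C := VocSpectrum q r ar mon)
      (fun A hA => vocSpectrum_powSq q r (∑ i, ar i) ar
        (fun i => Finset.single_le_sum (f := ar) (fun _ _ => Nat.zero_le _) (Finset.mem_univ i)) mon hA)
      ⟨U, hU1, hU2⟩
  · exact ne_rud_of_periodic ((pv_main q r k ar mon).2 h).1

end Pool.Agent.Helper38.EX
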