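import Pool.Agent.Helper38.EX.PVClause
import Pool.Agent.Helper29.EX.Hier2

/-!
# No prefix-vocabulary class has exactly the first-order spectra as its spectra
-/

set_option autoImplicit false

namespace Pool.Agent.Helper38.EX

open FirstOrder FirstOrder.Language Pool.Agent.Helper20.Spectra Pool.Agent.Helper20.OP
  Pool.Agent.Helper20.PV Pool.Agent.Helper20.EX

/-- Some first-order spectrum is not a spectrum of the prefix-vocabulary class. -/
theorem pv_ne_spectra (q : ℕ → Bool) (r k : ℕ) (ar : Fin k → ℕ) (mon : Bool) :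
    ¬ ∀ A : Set ℕ, VocSpectrum q r ar mon A ↔ IsSpectrum A := by
  intro H
  obtain ⟨A, h1, h2⟩ := Pool.Agent.Helper29.EX.exists_spectrum_not_powSq
    (r + r + max (∑ i, ar i) r + 1)
  exact h2 (vocSpectrum_powSq q r (∑ i, ar i) ar
    (fun i => Finset.single_le_sum (f := ar) (fun _ _ => Nat.zero_le _) (Finset.mem_univ i)) mon ((H A).2 h1))

end Pool.Agent.Helper38.EX
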