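import Pool.Agent.Helper38.EX.FDr
import Pool.Agent.Helper20.PV.Defs

/-!
# Prefix-vocabulary classes have bounded resources

The spectra of the sentences with a given quantifier word of length `r` and given function symbols of arity at most
`a` belong to one class `PowSq c`: the relation symbols are replaced by symbols `V_α` of arity `r`, one for each
atom `α`.
-/

set_option autoImplicit false

namespace Pool.Agent.Helper38.EX

open FirstOrder FirstOrder.Language Pool.Agent.Helper20.Spectra Pool.Agent.Helper20.PV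

section conj

variable {L : FirstOrder.Language.{0, 0}}

private lemma conjFin38 {m V : ℕ} (hm : m ≤ V) : ∀ (l : ℕ) (f : Fin l → L.BoundedFormula Empty m),
    (∀ i, ctx (f i) ≤ V) → ∃ g : L.BoundedFormula Empty m, ctx g ≤ V ∧
      ∀ (M : Type) (_ : L.Structure M) (v : Empty → M) (xs : Fin m → M),
        g.Realize v xs ↔ ∀ i, (f i).Realize v xs
  | 0, f, _ => by
    refine ⟨(BoundedFormula.falsum).imp BoundedFormula.falsum, ?_, ?_⟩
    · show max m m ≤ V
      simpa using hm
    · intro M _ v xs
      constructor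
      · intro _ i
        exact i.elim0
      · intro _ h
        exact h
  | l + 1, f, hf => by
    obtain ⟨g, hg, hg'⟩ := conjFin38 hm l (fun i => f i.castSucc) (fun i => hf i.castSucc)
    have hl := hf (Fin.last l)
    refine ⟨(g.imp ((f (Fin.last l)).imp BoundedFormula.falsum)).imp BoundedFormula.falsum, ?_, ?_⟩
    · show max (max (ctx g) (max (ctx (f (Fin.last l))) m)) m ≤ V
      omega
    · intro M _ v xs
      have e : (((g.imp ((f (Fin.last l)).imp BoundedFormula.falsum)).imp
          BoundedFormula.falsum).Realize v xs) ↔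
          ((g.Realize v xs → (f (Fin.last l)).Realize v xs → False) → False) := Iff.rfl
      rw [e, hg' M _ v xs]
      constructor
      · intro h i
        by_contra hi
        apply h
        intro h1 h2
        apply hi
        refine Fin.lastCases ?_ (fun j => ?_) i
        · exact h2
        · exact h1 j
      · intro h h1
        exact h1 (fun i => h i.castSucc) (h (Fin.last l))

private lemma conj38 {m V : ℕ} (hm : m ≤ V) {ι : Type} [Finite ι] (f : ι → L.BoundedFormula Empty m)
    (hf : ∀ i, ctx (f i) ≤ V) : ∃ g : L.BoundedFormula Empty m, ctx g ≤ V ∧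
      ∀ (M : Type) (_ : L.Structure M) (v : Empty → M) (xs : Fin m → M),
        g.Realize v xs ↔ ∀ i, (f i).Realize v xs := by
  obtain ⟨n, ⟨e⟩⟩ := Finite.exists_equiv_fin ι
  obtain ⟨g, hg, hg'⟩ := conjFin38 hm n (fun i => f (e.symm i)) (fun i => hf _)
  refine ⟨g, hg, fun M _ v xs => ?_⟩
  rw [hg' M _ v xs]
  constructor
  · intro h i
    have := h (e i)
    rwa [e.symm_apply_apply] at this
  · intro h i
    exact h _

private lemma ctx_alls38 : ∀ {m : ℕ} (f : L.BoundedFormula Empty m), ctx (L := L) (m := 0) f.alls = ctx f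
  | 0, _ => rfl
  | m + 1, f => by
    show ctx (L := L) (m := 0) (f.all).alls = ctx f
    rw [ctx_alls38 f.all]
    rfl

private lemma ctx_ex38 {m : ℕ} (f : L.BoundedFormula Empty (m + 1)) : ctx f.ex = ctx f := by
  have h1 := le_ctx f
  show max (max (ctx f) (m + 1)) m = ctx f
  omega

private lemma ctx_quantify38 (q : ℕ → Bool) : ∀ (r : ℕ) (ψ : L.BoundedFormula Empty r),
    ctx (L := L) (m := 0) (quantify q r ψ) = ctx ψ
  | 0, _ => rfl
  | r + 1, ψ => by
    show ctx (L := L) (m := 0) (quantify q r (if q r = true then ψ.all else ψ.ex)) = ctx ψ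
    rw [ctx_quantify38 q r]
    split_ifs
    · rfl
    · exact ctx_ex38 ψ

end conj

section

variable {k : ℕ} {ar : Fin k → ℕ} {Rel Rel' : ℕ → Type}

/-- the same term in another vocabulary with the same function symbols -/
private def tmap38 {α : Type} : (voc ar Rel).Term α → (voc ar Rel').Term α
  | .var a => .var a
  | .func f ts => .func (L := voc ar Rel') f (fun i => tmap38 (ts i))

/-- structures -/
@[reducible] private def stc38 {M : Type} (F : ∀ n, {i : Fin k // ar i = n} → (Fin n → M) → M)
    (R : ∀ n, Rel n → (Fin n → M) → Prop) : (voc ar Rel).Structure M :=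
  ⟨fun f => F _ f, fun s => R _ s⟩

private lemma realize_tmap38 {α M : Type} (F : ∀ n, {i : Fin k // ar i = n} → (Fin n → M) → M)
    (R : ∀ n, Rel n → (Fin n → M) → Prop) (R' : ∀ n, Rel' n → (Fin n → M) → Prop) (v : α → M)
    (t : (voc ar Rel).Term α) :
    @Term.realize (voc ar Rel') M (stc38 F R') α v (tmap38 t) =
      @Term.realize (voc ar Rel) M (stc38 F R) α v t := by
  induction t with
  | var a => rfl
  | func f ts ih =>
    show F _ f (fun i => @Term.realize (voc ar Rel') M (stc38 F R') α v (tmap38 (ts i))) =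
      F _ f (fun i => @Term.realize (voc ar Rel) M (stc38 F R) α v (ts i))
    congr 1
    funext i
    exact ih i

/-- atoms -/
private abbrev Atm38 (ar : Fin k → ℕ) (Rel : ℕ → Type) (r : ℕ) : Type :=
  Σ l, Rel l × (Fin l → (voc ar Rel).Term (Empty ⊕ Fin r))

/-- the relational atoms of a quantifier-free formula -/
private def occ38 : ∀ {m : ℕ}, (voc ar Rel).BoundedFormula Empty m → Set (Atm38 ar Rel m)
  | _, .falsum => ∅
  | _, .equal _ _ => ∅
  | _, .rel R ts => {⟨_, R, ts⟩}
  | _, .imp f g => occ38 f ∪ occ38 g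
  | _, .all _ => ∅

private lemma occ_finite38 : ∀ {m : ℕ} (f : (voc ar Rel).BoundedFormula Empty m), (occ38 f).Finite
  | _, .falsum => Set.finite_empty
  | _, .equal _ _ => Set.finite_empty
  | _, .rel _ _ => Set.finite_singleton _
  | _, .imp f g => (occ_finite38 f).union (occ_finite38 g)
  | _, .all _ => Set.finite_empty

variable {r : ℕ}

/-- the new relation symbols -/
private abbrev Rn38 (S : Set (Atm38 ar Rel r)) : ℕ → Type := fun l => {_a : S // r = l}

/-- their interpretation -/
private def In38 {S : Set (Atm38 ar Rel r)} {M : Type} (W : S → (Fin r → M) → Prop) :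
    ∀ n, Rn38 S n → (Fin n → M) → Prop :=
  fun _ a xs => W a.1 (fun i => xs (Fin.cast a.2 i))

/-- the values of the terms of an atom -/
private def val38 {M : Type} (F : ∀ n, {i : Fin k // ar i = n} → (Fin n → M) → M)
    (a : Atm38 ar Rel r) (v : Fin r → M) : Σ l, Rel l × (Fin l → M) :=
  ⟨a.1, a.2.1, fun i => @Term.realize (voc ar Rel) M (stc38 F (fun _ _ _ => False)) _
    (Sum.elim default v) (a.2.2 i)⟩

private lemma tr38 (S : Set (Atm38 ar Rel r)) {χ : (voc ar Rel).BoundedFormula Empty r} (hχ : χ.IsQF) :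
    occ38 χ ⊆ S → ∃ χ' : (voc ar (Rn38 S)).BoundedFormula Empty r, ctx χ' ≤ r ∧
      ∀ (M : Type) (F : ∀ n, {i : Fin k // ar i = n} → (Fin n → M) → M)
        (R : ∀ n, Rel n → (Fin n → M) → Prop) (W : S → (Fin r → M) → Prop),
        (∀ (a : S) (v : Fin r → M), W a v ↔ R (val38 F a.1 v).1 (val38 F a.1 v).2.1
          (val38 F a.1 v).2.2) →
        ∀ v : Fin r → M, @BoundedFormula.Realize _ M (stc38 F (In38 W)) _ _ χ' default v ↔
          @BoundedFormula.Realize _ M (stc38 F R) _ _ χ default v := by
  induction hχ with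
  | falsum =>
    intro _
    exact ⟨.falsum, le_rfl, fun M F R W _ v => Iff.rfl⟩
  | of_isAtomic h =>
    intro hS
    cases h with
    | equal t₁ t₂ =>
      refine ⟨.equal (tmap38 t₁) (tmap38 t₂), le_rfl, fun M F R W _ v => ?_⟩
      show @Term.realize (voc ar (Rn38 S)) M (stc38 F (In38 W)) _ (Sum.elim default v) (tmap38 t₁) =
        @Term.realize (voc ar (Rn38 S)) M (stc38 F (In38 W)) _ (Sum.elim default v) (tmap38 t₂) ↔
        @Term.realize (voc ar Rel) M (stc38 F R) _ (Sum.elim default v) t₁ =
        @Term.realize (voc ar Rel) M (stc38 F R) _ (Sum.elim default v) t₂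
      rw [realize_tmap38 F R, realize_tmap38 F R]
    | @rel l R0 ts =>
      have ha : (⟨l, R0, ts⟩ : Atm38 ar Rel r) ∈ S := hS (Set.mem_singleton _)
      refine ⟨.rel (L := voc ar (Rn38 S)) (l := r) ⟨⟨⟨l, R0, ts⟩, ha⟩, rfl⟩
        (fun i => Term.var (Sum.inr i)), le_rfl, fun M F R W hW v => ?_⟩
      show W ⟨⟨l, R0, ts⟩, ha⟩ v ↔ R l R0 (fun i => @Term.realize (voc ar Rel) M (stc38 F R) _
        (Sum.elim default v) (ts i))
      rw [hW]
      show R l R0 (fun i => @Term.realize (voc ar Rel) M (stc38 F (fun _ _ _ => False)) _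
        (Sum.elim default v) (ts i)) ↔ _
      refine Iff.of_eq (congrArg _ ?_)
      funext i
      have h1 := realize_tmap38 (Rel' := Rel) F R R (Sum.elim default v) (ts i)
      have h2 := realize_tmap38 (Rel' := Rel) F (fun _ _ _ => False) R (Sum.elim default v) (ts i)
      rw [← h2, h1]
  | imp _ _ ih1 ih2 =>
    intro hS
    obtain ⟨f, hf, hf'⟩ := ih1 (fun a ha => hS (Or.inl ha))
    obtain ⟨g, hg, hg'⟩ := ih2 (fun a ha => hS (Or.inr ha))
    refine ⟨f.imp g, max_le hf hg, fun M F R W hW v => ?_⟩
    exact imp_congr (hf' M F R W hW v) (hg' M F R W hW v)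

/-- the consistency axiom for two atoms -/
private lemma ax38 (S : Set (Atm38 ar Rel r)) (a b : S) :
    ∃ g : (voc ar (Rn38 S)).Sentence, ctx (L := voc ar (Rn38 S)) (m := 0) g ≤ r + r ∧
      ∀ (M : Type) (F : ∀ n, {i : Fin k // ar i = n} → (Fin n → M) → M)
        (W : S → (Fin r → M) → Prop),
        @Sentence.Realize _ M (stc38 F (In38 W)) g ↔
          ∀ v u : Fin r → M, val38 F a.1 v = val38 F b.1 u → (W a v ↔ W b u) := by
  obtain ⟨⟨l, R0, ts⟩, ha⟩ := a
  obtain ⟨⟨l', R0', ss⟩, hb⟩ := b
  by_cases h : (⟨l, R0⟩ : Σ l, Rel l) = ⟨l', R0'⟩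
  · cases h
    obtain ⟨g1, hg1, hg1'⟩ := conj38 (L := voc ar (Rn38 S)) (m := r + r) (V := r + r) le_rfl
      (ι := Fin l) (fun i => BoundedFormula.equal
        ((tmap38 (ts i)).relabel (Sum.map id (Fin.castAdd r)))
        ((tmap38 (ss i)).relabel (Sum.map id (Fin.natAdd r)))) (fun i => le_rfl)
    let A1 : (voc ar (Rn38 S)).BoundedFormula Empty (r + r) := .rel (L := voc ar (Rn38 S)) (l := r)
      ⟨⟨⟨l, R0, ts⟩, ha⟩, rfl⟩ (fun i => Term.var (Sum.inr (Fin.castAdd r i)))
    let A2 : (voc ar (Rn38 S)).BoundedFormula Empty (r + r) := .rel (L := voc ar (Rn38 S)) (l := r)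
      ⟨⟨⟨l, R0, ss⟩, hb⟩, rfl⟩ (fun i => Term.var (Sum.inr (Fin.natAdd r i)))
    obtain ⟨g2, hg2, hg2'⟩ := conj38 (L := voc ar (Rn38 S)) (m := r + r) (V := r + r) le_rfl
      (ι := Bool) (fun c => if c then g1.imp (A1.imp A2) else g1.imp (A2.imp A1)) (by
        intro c
        cases c
        · show max (ctx g1) (max (r + r) (r + r)) ≤ r + r
          omega
        · show max (ctx g1) (max (r + r) (r + r)) ≤ r + r
          omega)
    refine ⟨g2.alls, by rw [ctx_alls38]; exact hg2, fun M F W => ?_⟩
    let _ := stc38 F (In38 W)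
    have h1 : @Sentence.Realize _ M (stc38 F (In38 W)) g2.alls ↔
        ∀ xs : Fin (r + r) → M, g2.Realize (default : Empty → M) xs := by
      show BoundedFormula.Realize g2.alls default default ↔ _
      have := BoundedFormula.realize_alls (φ := g2) (v := (default : Empty → M))
      exact this
    rw [h1]
    have h2 : ∀ xs : Fin (r + r) → M, g2.Realize (default : Empty → M) xs ↔
        (val38 F (⟨l, R0, ts⟩ : Atm38 ar Rel r) (xs ∘ Fin.castAdd r) =
          val38 F (⟨l, R0, ss⟩ : Atm38 ar Rel r) (xs ∘ Fin.natAdd r) →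
          (W ⟨⟨l, R0, ts⟩, ha⟩ (xs ∘ Fin.castAdd r) ↔ W ⟨⟨l, R0, ss⟩, hb⟩ (xs ∘ Fin.natAdd r))) := by
      intro xs
      rw [hg2' M _ default xs]
      have e1 : g1.Realize (default : Empty → M) xs ↔
          val38 F (⟨l, R0, ts⟩ : Atm38 ar Rel r) (xs ∘ Fin.castAdd r) =
          val38 F (⟨l, R0, ss⟩ : Atm38 ar Rel r) (xs ∘ Fin.natAdd r) := by
        rw [hg1' M _ default xs]
        have key : ∀ (t : (voc ar Rel).Term (Empty ⊕ Fin r)) (f : Fin r → Fin (r + r)),
            Term.realize (Sum.elim (default : Empty → M) xs)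
              ((tmap38 (Rel' := Rn38 S) t).relabel (Sum.map id f)) =
            @Term.realize (voc ar Rel) M (stc38 F (fun _ _ _ => False)) _
              (Sum.elim default (xs ∘ f)) t := by
          intro t f
          rw [Term.realize_relabel]
          have e2 : (Sum.elim (default : Empty → M) xs ∘ Sum.map id f) =
              Sum.elim (default : Empty → M) (xs ∘ f) := by
            funext x
            rcases x with x | x
            · exact x.elim
            · rfl
          rw [e2]
          exact realize_tmap38 F (fun _ _ _ => False) (In38 W) _ t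
        constructor
        · intro h3
          unfold val38
          simp only [Sigma.mk.injEq, true_and, heq_eq_eq, Prod.mk.injEq]
          funext i
          have h4 := h3 i
          have h5 : Term.realize (Sum.elim (default : Empty → M) xs)
              ((tmap38 (Rel' := Rn38 S) (ts i)).relabel (Sum.map id (Fin.castAdd r))) =
            Term.realize (Sum.elim (default : Empty → M) xs)
              ((tmap38 (Rel' := Rn38 S) (ss i)).relabel (Sum.map id (Fin.natAdd r))) := h4
          rw [key, key] at h5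
          exact h5
        · intro h3 i
          unfold val38 at h3
          simp only [Sigma.mk.injEq, true_and, heq_eq_eq, Prod.mk.injEq] at h3
          have h4 := congrFun h3 i
          show Term.realize (Sum.elim (default : Empty → M) xs)
              ((tmap38 (Rel' := Rn38 S) (ts i)).relabel (Sum.map id (Fin.castAdd r))) =
            Term.realize (Sum.elim (default : Empty → M) xs)
              ((tmap38 (Rel' := Rn38 S) (ss i)).relabel (Sum.map id (Fin.natAdd r)))
          rw [key, key]
          exact h4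
      have e3 : A1.Realize (default : Empty → M) xs ↔ W ⟨⟨l, R0, ts⟩, ha⟩ (xs ∘ Fin.castAdd r) := Iff.rfl
      have e4 : A2.Realize (default : Empty → M) xs ↔ W ⟨⟨l, R0, ss⟩, hb⟩ (xs ∘ Fin.natAdd r) := Iff.rfl
      rw [← e1, ← e3, ← e4]
      constructor
      · intro h3 h4
        exact ⟨h3 true h4, h3 false h4⟩
      · intro h3 c
        cases c
        · exact fun h4 => (h3 h4).2
        · exact fun h4 => (h3 h4).1
    constructor
    · intro h3 v u h4
      have h5 := (h2 (Fin.append v u)).1 (h3 _)
      have e5 : (Fin.append v u ∘ Fin.castAdd r) = v := by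
        funext i
        exact Fin.append_left v u i
      have e6 : (Fin.append v u ∘ Fin.natAdd r) = u := by
        funext i
        exact Fin.append_right v u i
      rw [e5, e6] at h5
      exact h5 h4
    · intro h3 xs
      rw [h2]
      exact h3 _ _
  · refine ⟨(BoundedFormula.falsum).imp BoundedFormula.falsum, by
      show max 0 0 ≤ r + r
      omega, fun M F W => ?_⟩
    constructor
    · intro _ v u h3
      exfalso
      apply h
      unfold val38 at h3
      rw [Sigma.mk.injEq] at h3
      obtain ⟨h4, h5⟩ := h3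
      subst h4
      rw [heq_eq_eq, Prod.mk.injEq] at h5
      exact congrArg (fun x : Rel l => (⟨l, x⟩ : Σ l, Rel l)) h5.1
    · intro _ h4
      exact h4

end

/-- **Prefix-vocabulary classes have bounded resources.** -/
theorem vocSpectrum_powSq (q : ℕ → Bool) (r a : ℕ) {k : ℕ} (ar : Fin k → ℕ) (ha : ∀ i, ar i ≤ a)
    (mon : Bool) {A : Set ℕ} (hA : VocSpectrum q r ar mon A) : PowSq (r + r + max a r + 1) A := by
  obtain ⟨Rel, hRel, -, ψ, hψ, rfl⟩ := hA
  let S : Set (Atm38 ar Rel r) := occ38 ψ
  have hSf : Finite S := occ_finite38 ψ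
  obtain ⟨ψ', hψ', hψr⟩ := tr38 S hψ (subset_refl _)
  have hax := fun p : S × S => ax38 S p.1 p.2
  choose g hg hg' using hax
  obtain ⟨Φ, hΦ, hΦ'⟩ := conj38 (L := voc ar (Rn38 S)) (m := 0) (V := r + r) (Nat.zero_le _)
    (ι := Option (S × S)) (fun p => match p with
      | none => quantify q r ψ'
      | some p => g p) (by
      intro p
      rcases p with _ | p
      · show ctx (L := voc ar (Rn38 S)) (m := 0) (quantify q r ψ') ≤ r + r
        rw [ctx_quantify38]
        omega
      · exact hg p)
  have hfF : Finite (Σ l, (voc ar (Rn38 S)).Functions l) := by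
    apply Finite.of_surjective (fun i : Fin k => (⟨ar i, ⟨i, rfl⟩⟩ :
      Σ l, (voc ar (Rn38 S)).Functions l))
    rintro ⟨l, i, rfl⟩
    exact ⟨i, rfl⟩
  have hfR : Finite (Σ l, (voc ar (Rn38 S)).Relations l) := by
    apply Finite.of_surjective (fun s : S => (⟨r, ⟨s, rfl⟩⟩ :
      Σ l, (voc ar (Rn38 S)).Relations l))
    rintro ⟨l, s, rfl⟩
    exact ⟨s, rfl⟩
  have hmain : PowSq (r + r + max a r + 1) (spec (L := voc ar (Rn38 S)) Φ) := by
    refine powSq_of_ctx (L := voc ar (Rn38 S)) Φ (V := r + r) (k := r + r + max a r) (by omega) hΦ ?_ ?_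
    · rintro ⟨l, i, rfl⟩
      have := ha i
      show r + r + ar i ≤ _
      omega
    · rintro ⟨l, s, rfl⟩
      show r + r + r ≤ _
      omega
  have hreal : ∀ (M : Type) (T : (voc ar (Rn38 S)).Structure M),
      (@Sentence.Realize _ M T Φ) ↔ (@Sentence.Realize _ M T (quantify q r ψ')) ∧
        ∀ p : S × S, @Sentence.Realize _ M T (g p) := by
    intro M T
    have h1 := hΦ' M T default default
    constructor
    · intro h
      have h2 := h1.1 h
      exact ⟨h2 none, fun p => h2 (some p)⟩
    · rintro ⟨h2, h3⟩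
      refine h1.2 ?_
      rintro (_ | p)
      · exact h2
      · exact h3 p
  have hval : ∀ (M : Type) (F : ∀ n, {i : Fin k // ar i = n} → (Fin n → M) → M)
      (R : ∀ n, Rel n → (Fin n → M) → Prop) (x y : Σ l, Rel l × (Fin l → M)), x = y →
      (R x.1 x.2.1 x.2.2 ↔ R y.1 y.2.1 y.2.2) := by
    intro M F R x y h
    rw [h]
  have hspec : spec (L := voc ar Rel) (quantify q r ψ) = spec (L := voc ar (Rn38 S)) Φ := by
    ext n
    constructor
    · rintro ⟨hn, M, T, hM, hc, hr⟩
      let F : ∀ n, {i : Fin k // ar i = n} → (Fin n → M) → M := fun _ f => T.funMap f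
      let R : ∀ n, Rel n → (Fin n → M) → Prop := fun _ s => T.RelMap s
      let W : S → (Fin r → M) → Prop := fun a v =>
        R (val38 F a.1 v).1 (val38 F a.1 v).2.1 (val38 F a.1 v).2.2
      refine ⟨hn, M, stc38 F (In38 W), hM, hc, ?_⟩
      rw [hreal]
      constructor
      · rw [@realize_quantify _ M (stc38 F (In38 W))]
        have h2 := (@realize_quantify _ M (stc38 F R) q r ψ).1 hr
        exact (preQ_congr q (fun v => hψr M F R W (fun a v => Iff.rfl) v)).2 h2
      · intro p
        rw [hg' p M F W]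
        intro v u h3
        exact hval M F R _ _ h3
    · rintro ⟨hn, M, T, hM, hc, hr⟩
      let F : ∀ n, {i : Fin k // ar i = n} → (Fin n → M) → M := fun _ f => T.funMap f
      let W : S → (Fin r → M) → Prop := fun a v =>
        T.RelMap (⟨a, rfl⟩ : (voc ar (Rn38 S)).Relations r) v
      have hT : T = stc38 F (In38 W) := by
        ext n f x
        · rfl
        · obtain ⟨s, rfl⟩ := f
          rfl
      rw [hT, hreal] at hr
      obtain ⟨hr1, hr2⟩ := hr
      let R : ∀ n, Rel n → (Fin n → M) → Prop := fun l R0 xs =>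
        ∃ (b : S) (u : Fin r → M), (⟨l, R0, xs⟩ : Σ l, Rel l × (Fin l → M)) = val38 F b.1 u ∧ W b u
      have hW : ∀ (a : S) (v : Fin r → M), W a v ↔ R (val38 F a.1 v).1 (val38 F a.1 v).2.1
          (val38 F a.1 v).2.2 := by
        intro a v
        constructor
        · intro h
          exact ⟨a, v, rfl, h⟩
        · rintro ⟨b, u, h1, h2⟩
          exact ((hg' (a, b) M F W).1 (hr2 (a, b)) v u h1).2 h2
      refine ⟨hn, M, stc38 F R, hM, hc, ?_⟩
      rw [@realize_quantify _ M (stc38 F R)]
      have h2 := (@realize_quantify _ M (stc38 F (In38 W)) q r ψ').1 hr1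
      exact (preQ_congr q (fun v => hψr M F R W hW v)).1 h2
  rw [hspec]
  exact hmain

end Pool.Agent.Helper38.EX
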